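import Pool.Agent.H99.FR.Defs
import Pool.Graph.R_seed8.W782.FG.Chain

/-!
# The chain bound for correlated numbers of independently moving particles
-/

set_option autoImplicit false

namespace Pool.Agent.H99.FR

open FrogGW (Reach)
open MeasureTheory ProbabilityTheory
open scoped ENNReal NNReal Classical
open Pool.Agent.W782.FG (D D_meas D_update dz D_sum rel rel_erase D_reach reach_rel)

section chain

variable {ι U : Type} [MeasurableSpace U]

/-- sum over the particles of a vertex -/
noncomputable def sm (num : ι → ℕ → ℕ) (f : U → ℝ≥0∞) (x : ι) (r : ℕ × (ℕ → U)) : ℝ≥0∞ :=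
  ∑ j ∈ Finset.range (num x r.1), f (r.2 j)

/-- weighted sum over the self-avoiding chains -/
noncomputable def W (num : ι → ℕ → ℕ) (a : ι → ι → U → ℝ≥0∞) (q : ι → U → ℝ≥0∞) :
    ℕ → Finset ι → ι → (ι → ℕ × (ℕ → U)) → ℝ≥0∞
  | 0, _, x, w => sm num (q x) x (w x)
  | m + 1, S', x, w => sm num (q x) x (w x) +
      ∑ y ∈ S', sm num (a x y) x (w x) * W num a q m (S'.erase y) y w

/-- the conditional expectation of `W` given the numbers of particles -/
noncomputable def EW (num : ι → ℕ → ℕ) (ab : ι → ι → ℝ≥0∞) (qb : ι → ℝ≥0∞) :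
    ℕ → Finset ι → ι → (ι → ℕ) → ℝ≥0∞
  | 0, _, x, n => (num x (n x) : ℝ≥0∞) * qb x
  | m + 1, S', x, n => (num x (n x) : ℝ≥0∞) *
      (qb x + ∑ y ∈ S', ab x y * EW num ab qb m (S'.erase y) y n)

lemma D_le_W (num : ι → ℕ → ℕ) (a : ι → ι → U → ℝ≥0∞) (q : ι → U → ℝ≥0∞)
    (E : ι → ι → ℕ × (ℕ → U) → Prop) (hE : ∀ x y r, E x y r → 1 ≤ sm num (a x y) x r) :
    ∀ (m : ℕ) (S' : Finset ι) (x : ι) (w : ι → ℕ × (ℕ → U)),
      D E (fun x r => sm num (q x) x r) m S' x w ≤ W num a q m S' x w := by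
  intro m
  induction m with
  | zero => intro S' x w; exact le_rfl
  | succ m ih =>
    intro S' x w
    rw [D, W]
    refine add_le_add le_rfl (Finset.sum_le_sum fun y _ => ?_)
    split_ifs with h
    · calc D E (fun x r => sm num (q x) x r) m (S'.erase y) y w
          = 1 * D E (fun x r => sm num (q x) x r) m (S'.erase y) y w := (one_mul _).symm
        _ ≤ _ := mul_le_mul' (hE x y _ h) (ih _ _ _)
    · exact zero_le

lemma sm_meas (num : ι → ℕ → ℕ) {f : U → ℝ≥0∞} (hf : Measurable f) (x : ι) :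
    Measurable (sm num f x) := by
  apply measurable_from_prod_countable_right
  intro n
  have h0 : ∀ j ∈ Finset.range (num x n), Measurable fun y : ℕ → U => f (y j) :=
    fun j _ => hf.comp (measurable_pi_apply j)
  exact Finset.measurable_sum _ h0

lemma W_meas (num : ι → ℕ → ℕ) (a : ι → ι → U → ℝ≥0∞) (q : ι → U → ℝ≥0∞)
    (ha : ∀ x y, Measurable (a x y)) (hq : ∀ x, Measurable (q x)) :
    ∀ (m : ℕ) (S' : Finset ι) (x : ι), Measurable (W num a q m S' x) := by
  intro m
  induction m with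
  | zero => intro S' x; exact (sm_meas num (hq x) x).comp (measurable_pi_apply x)
  | succ m ih =>
    intro S' x
    refine ((sm_meas num (hq x) x).comp (measurable_pi_apply x)).add ?_
    refine Finset.measurable_sum _ fun y _ => ?_
    exact ((sm_meas num (ha x y) x).comp (measurable_pi_apply x)).mul (ih _ _)

/-- `W` depends only on the coordinates `x` and `S'` -/
lemma W_update (num : ι → ℕ → ℕ) (a : ι → ι → U → ℝ≥0∞) (q : ι → U → ℝ≥0∞) (n : ι → ℕ) :
    ∀ (m : ℕ) (S' : Finset ι) (x z : ι) (u : ι → ℕ → U) (r : ℕ → U),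
    z ≠ x → z ∉ S' → W num a q m S' x (fun v => (n v, Function.update u z r v)) =
      W num a q m S' x (fun v => (n v, u v)) := by
  intro m
  induction m with
  | zero =>
    intro S' x z u r hz _
    simp only [W, Function.update_of_ne hz.symm]
  | succ m ih =>
    intro S' x z u r hz hS
    simp only [W, Function.update_of_ne hz.symm]
    congr 1
    refine Finset.sum_congr rfl fun y hy => ?_
    have hzy : z ≠ y := fun h => hS (h ▸ hy)
    rw [ih (S'.erase y) y z u r hzy fun h => hS (Finset.mem_of_mem_erase h)]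

lemma sm_int (P : Measure U) [IsProbabilityMeasure P] (num : ι → ℕ → ℕ) {f : U → ℝ≥0∞}
    (hf : Measurable f) (x : ι) (k : ℕ) :
    ∫⁻ r : ℕ → U, sm num f x (k, r) ∂(Measure.infinitePi fun _ : ℕ => P) =
      (num x k : ℝ≥0∞) * ∫⁻ u, f u ∂P := by
  unfold sm
  simp only
  have h0 : ∀ j ∈ Finset.range (num x k), Measurable fun y : ℕ → U => f (y j) :=
    fun j _ => hf.comp (measurable_pi_apply j)
  rw [lintegral_finsetSum _ h0]
  have h2 : ∀ j ∈ Finset.range (num x k), ∫⁻ v : ℕ → U, f (v j)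
      ∂(Measure.infinitePi fun _ : ℕ => P) = ∫⁻ u, f u ∂P := by
    intro j _
    exact (measurePreserving_eval_infinitePi (fun _ : ℕ => P) j).lintegral_comp hf
  rw [Finset.sum_congr rfl h2]
  simp

lemma W_int (P : Measure U) [IsProbabilityMeasure P] (num : ι → ℕ → ℕ) (a : ι → ι → U → ℝ≥0∞)
    (q : ι → U → ℝ≥0∞) (ha : ∀ x y, Measurable (a x y)) (hq : ∀ x, Measurable (q x))
    (n : ι → ℕ) :
    ∀ (m : ℕ) (S' : Finset ι) (x : ι), x ∉ S' →
      ∫⁻ u, W num a q m S' x (fun v => (n v, u v))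
        ∂(Measure.infinitePi fun _ : ι => Measure.infinitePi fun _ : ℕ => P) =
      EW num (fun x y => ∫⁻ u, a x y u ∂P) (fun x => ∫⁻ u, q x u ∂P) m S' x n := by
  set PP : Measure (ℕ → U) := Measure.infinitePi fun _ : ℕ => P with hPP
  have hpair : ∀ x : ι, Measurable fun u : ι → ℕ → U => (n x, u x) := fun x =>
    measurable_const.prodMk (measurable_pi_apply x)
  have hall : Measurable fun u : ι → ℕ → U => fun v => (n v, u v) :=
    measurable_pi_lambda _ fun v => hpair v
  have hone : ∀ (x : ι) (f : U → ℝ≥0∞), Measurable f →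
      ∫⁻ u : ι → ℕ → U, sm num f x (n x, u x) ∂(Measure.infinitePi fun _ : ι => PP) =
        (num x (n x) : ℝ≥0∞) * ∫⁻ u, f u ∂P := by
    intro x f hf
    rw [← sm_int P num hf x (n x), ← hPP]
    exact (measurePreserving_eval_infinitePi (fun _ : ι => PP) x).lintegral_comp
      ((sm_meas num hf x).comp (measurable_const.prodMk measurable_id))
  intro m
  induction m with
  | zero =>
    intro S' x _
    simp only [W, EW]
    exact hone x (q x) (hq x)
  | succ m ih =>
    intro S' x hx
    simp only [W, EW]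
    have hq' : Measurable fun u : ι → ℕ → U => sm num (q x) x (n x, u x) :=
      (sm_meas num (hq x) x).comp (hpair x)
    rw [lintegral_add_left hq', hone x (q x) (hq x), mul_add]
    congr 1
    have hm : ∀ y ∈ S', Measurable fun u : ι → ℕ → U => sm num (a x y) x (n x, u x) *
        W num a q m (S'.erase y) y (fun v => (n v, u v)) := fun y _ =>
      ((sm_meas num (ha x y) x).comp (hpair x)).mul ((W_meas num a q ha hq _ _ _).comp hall)
    rw [lintegral_finsetSum _ hm, Finset.mul_sum]
    refine Finset.sum_congr rfl fun y hy => ?_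
    have hxy : x ≠ y := fun h => hx (h ▸ hy)
    have h1 := Pool.Agent.W782.FG.lintegral_indep (ι := ι) PP x
      (fun r => sm num (a x y) x (n x, r))
      (fun u => W num a q m (S'.erase y) y (fun v => (n v, u v)))
      ((sm_meas num (ha x y) x).comp (measurable_const.prodMk measurable_id))
      ((W_meas num a q ha hq _ _ _).comp hall)
      (fun u r => W_update num a q n m _ y x u r hxy fun h => hx (Finset.mem_of_mem_erase h))
    rw [h1, ih _ _ (Finset.notMem_erase y S'), sm_int P num (ha x y) x (n x), mul_assoc]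

lemma EW_meas (num : ι → ℕ → ℕ) (ab : ι → ι → ℝ≥0∞) (qb : ι → ℝ≥0∞) :
    ∀ (m : ℕ) (S' : Finset ι) (x : ι), Measurable (EW num ab qb m S' x) := by
  have h0 : ∀ x : ι, Measurable fun n : ι → ℕ => (num x (n x) : ℝ≥0∞) := fun x =>
    (measurable_from_top (f := fun k : ℕ => (num x k : ℝ≥0∞))).comp (measurable_pi_apply x)
  intro m
  induction m with
  | zero => intro S' x; exact (h0 x).mul_const _
  | succ m ih =>
    intro S' x
    refine (h0 x).mul (measurable_const.add (Finset.measurable_sum _ fun y _ => ?_))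
    exact (ih _ _).const_mul _

lemma EW_bound (μ : Measure (ι → ℕ)) (num : ι → ℕ → ℕ) (ab : ι → ι → ℝ≥0∞) (qb : ι → ℝ≥0∞)
    (cf Ub : ι → ℝ≥0∞)
    (hμ : ∀ G : Finset ι, ∫⁻ n, ∏ v ∈ G, (num v (n v) : ℝ≥0∞) ∂μ ≤ ∏ v ∈ G, cf v)
    (S : Finset ι) (hU : ∀ x ∈ S, qb x + ∑ y ∈ S, ab x y * (cf y * Ub y) ≤ Ub x) :
    ∀ (m : ℕ) (S' G : Finset ι) (x : ι), x ∈ S → x ∉ S' → S' ⊆ S → x ∉ G → Disjoint G S' →
      ∫⁻ n, (∏ v ∈ G, (num v (n v) : ℝ≥0∞)) * EW num ab qb m S' x n ∂μ ≤
        (∏ v ∈ G, cf v) * (cf x * Ub x) := by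
  have h0 : ∀ x : ι, Measurable fun n : ι → ℕ => (num x (n x) : ℝ≥0∞) := fun x =>
    (measurable_from_top (f := fun k : ℕ => (num x k : ℝ≥0∞))).comp (measurable_pi_apply x)
  have hG : ∀ G : Finset ι, Measurable fun n : ι → ℕ => ∏ v ∈ G, (num v (n v) : ℝ≥0∞) :=
    fun G => Finset.measurable_fun_prod _ fun v _ => h0 v
  intro m
  induction m with
  | zero =>
    intro S' G x hx _ _ hxG _
    have h1 : ∀ n : ι → ℕ, (∏ v ∈ G, (num v (n v) : ℝ≥0∞)) * EW num ab qb 0 S' x n =
        (∏ v ∈ insert x G, (num v (n v) : ℝ≥0∞)) * qb x := by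
      intro n
      rw [Finset.prod_insert hxG, EW]
      ring
    simp only [h1]
    rw [lintegral_mul_const _ (hG _)]
    calc (∫⁻ n, ∏ v ∈ insert x G, (num v (n v) : ℝ≥0∞) ∂μ) * qb x
        ≤ (∏ v ∈ insert x G, cf v) * Ub x :=
          mul_le_mul' (hμ _) (le_trans le_self_add (hU x hx))
      _ = _ := by rw [Finset.prod_insert hxG]; ring
  | succ m ih =>
    intro S' G x hx hxS' hS' hxG hd
    have h1 : ∀ n : ι → ℕ, (∏ v ∈ G, (num v (n v) : ℝ≥0∞)) * EW num ab qb (m + 1) S' x n =
        (∏ v ∈ insert x G, (num v (n v) : ℝ≥0∞)) * qb x +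
        ∑ y ∈ S', ab x y * ((∏ v ∈ insert x G, (num v (n v) : ℝ≥0∞)) *
          EW num ab qb m (S'.erase y) y n) := by
      intro n
      rw [Finset.prod_insert hxG, EW, mul_add, mul_add, Finset.mul_sum, Finset.mul_sum]
      congr 1
      · ring
      · exact Finset.sum_congr rfl fun y _ => by ring
    simp only [h1]
    have hmy : ∀ y ∈ S', Measurable fun n : ι → ℕ => ab x y *
        ((∏ v ∈ insert x G, (num v (n v) : ℝ≥0∞)) * EW num ab qb m (S'.erase y) y n) :=
      fun y _ => ((hG _).mul (EW_meas num ab qb m _ y)).const_mul _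
    rw [lintegral_add_left ((hG _).mul_const _), lintegral_mul_const _ (hG _),
      lintegral_finsetSum _ hmy]
    have h2 : ∀ y ∈ S', ∫⁻ n, ab x y * ((∏ v ∈ insert x G, (num v (n v) : ℝ≥0∞)) *
          EW num ab qb m (S'.erase y) y n) ∂μ ≤
        ab x y * ((∏ v ∈ insert x G, cf v) * (cf y * Ub y)) := by
      intro y hy
      have hxy : y ≠ x := fun h => hxS' (h ▸ hy)
      have hyG : y ∉ G := fun h => (Finset.disjoint_left.1 hd) h hy
      have hm1 : Measurable fun n : ι → ℕ =>
          (∏ v ∈ insert x G, (num v (n v) : ℝ≥0∞)) * EW num ab qb m (S'.erase y) y n :=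
        (hG _).mul (EW_meas num ab qb m _ y)
      rw [lintegral_const_mul _ hm1]
      refine mul_le_mul_right ?_ _
      refine ih _ _ y (hS' hy) (Finset.notMem_erase y S')
        ((Finset.erase_subset _ _).trans hS') ?_ ?_
      · rw [Finset.mem_insert]
        rintro (h | h)
        · exact hxy h
        · exact hyG h
      · rw [Finset.disjoint_insert_left]
        exact ⟨fun h => hxS' (Finset.mem_of_mem_erase h),
          hd.mono_right (Finset.erase_subset _ _)⟩
    calc (∫⁻ n, ∏ v ∈ insert x G, (num v (n v) : ℝ≥0∞) ∂μ) * qb x +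
          ∑ y ∈ S', ∫⁻ n, ab x y * ((∏ v ∈ insert x G, (num v (n v) : ℝ≥0∞)) *
            EW num ab qb m (S'.erase y) y n) ∂μ
        ≤ (∏ v ∈ insert x G, cf v) * qb x +
          ∑ y ∈ S', ab x y * ((∏ v ∈ insert x G, cf v) * (cf y * Ub y)) :=
          add_le_add (mul_le_mul' (hμ _) le_rfl) (Finset.sum_le_sum h2)
      _ = (∏ v ∈ insert x G, cf v) * (qb x + ∑ y ∈ S', ab x y * (cf y * Ub y)) := by
          rw [mul_add, Finset.mul_sum]
          congr 1
          exact Finset.sum_congr rfl fun y _ => by ring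
      _ ≤ (∏ v ∈ insert x G, cf v) * Ub x := by
          refine mul_le_mul_right ?_ _
          exact le_trans (add_le_add le_rfl (Finset.sum_le_sum_of_subset hS')) (hU x hx)
      _ = _ := by rw [Finset.prod_insert hxG]; ring

/-- The chain bound. -/
theorem chain (P : Measure U) [IsProbabilityMeasure P] (μ : Measure (ι → ℕ))
    [IsProbabilityMeasure μ] (num : ι → ℕ → ℕ)
    (B S : Finset ι) (hBS : B ⊆ S) (E : ι → ι → ℕ × (ℕ → U) → Prop)
    (a : ι → ι → U → ℝ≥0∞) (q : ι → U → ℝ≥0∞) (ha : ∀ x y, Measurable (a x y))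
    (hq : ∀ x, Measurable (q x)) (hE : ∀ x y r, E x y r → 1 ≤ sm num (a x y) x r)
    (cf Ub : ι → ℝ≥0∞)
    (hμ : ∀ G : Finset ι, ∫⁻ n, ∏ v ∈ G, (num v (n v) : ℝ≥0∞) ∂μ ≤ ∏ v ∈ G, cf v)
    (hU : ∀ x ∈ S, ∫⁻ u, q x u ∂P + ∑ y ∈ S, (∫⁻ u, a x y u ∂P) * (cf y * Ub y) ≤ Ub x) :
    ∫⁻ ω, ∑ z ∈ S, (if Reach B S E ω z then sm num (q z) z (ω z) else 0)
      ∂((μ.prod (Measure.infinitePi fun _ : ι => Measure.infinitePi fun _ : ℕ => P)).map
        fun p v => (p.1 v, p.2 v)) ≤ ∑ x ∈ B, cf x * Ub x := by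
  have hmap : Measurable fun p : (ι → ℕ) × (ι → ℕ → U) => fun v => (p.1 v, p.2 v) :=
    measurable_pi_lambda _ fun v => ((measurable_pi_apply v).comp measurable_fst).prodMk
      ((measurable_pi_apply v).comp measurable_snd)
  set M := (μ.prod (Measure.infinitePi fun _ : ι => Measure.infinitePi fun _ : ℕ => P)).map
        fun p v => (p.1 v, p.2 v) with hM
  calc ∫⁻ ω, ∑ z ∈ S, (if Reach B S E ω z then sm num (q z) z (ω z) else 0) ∂M
      ≤ ∫⁻ ω, ∑ b ∈ B, W num a q S.card (S.erase b) b ω ∂M := by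
        apply lintegral_mono
        intro w
        have h1 : ∀ z ∈ S, (if Reach B S E w z then sm num (q z) z (w z) else 0) ≤
            ∑ b ∈ B, D E (dz (fun x r => sm num (q x) x r) z) S.card (S.erase b) b w := by
          intro z _
          split_ifs with h
          · obtain ⟨b, hb, h⟩ := reach_rel h
            refine le_trans ?_ (Finset.single_le_sum
              (f := fun b => D E (dz (fun x r => sm num (q x) x r) z) S.card (S.erase b) b w)
              (fun _ _ => zero_le) hb)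
            exact D_reach (fun x r => sm num (q x) x r) w z _ _ _
              (Finset.card_le_card (Finset.erase_subset _ _)) (rel_erase h)
          · exact zero_le
        refine (Finset.sum_le_sum h1).trans ?_
        rw [Finset.sum_comm]
        exact Finset.sum_le_sum fun b _ => (D_sum _ S _ _ _ _).trans
          (D_le_W num a q E hE _ _ _ _)
    _ = ∑ b ∈ B, ∫⁻ ω, W num a q S.card (S.erase b) b ω ∂M :=
        lintegral_finsetSum _ fun b _ => W_meas num a q ha hq _ _ _
    _ ≤ ∑ x ∈ B, cf x * Ub x := Finset.sum_le_sum fun b hb => by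
        have hWm : Measurable fun p : (ι → ℕ) × (ι → ℕ → U) =>
            W num a q S.card (S.erase b) b (fun v => (p.1 v, p.2 v)) :=
          (W_meas num a q ha hq _ _ _).comp hmap
        rw [hM, lintegral_map (W_meas num a q ha hq _ _ _) hmap, lintegral_prod _
          hWm.aemeasurable]
        simp only
        rw [lintegral_congr fun n => W_int P num a q ha hq n _ _ _ (Finset.notMem_erase b S)]
        have := EW_bound μ num (fun x y => ∫⁻ u, a x y u ∂P) (fun x => ∫⁻ u, q x u ∂P) cf Ub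
          hμ S hU S.card (S.erase b) ∅ b (hBS hb) (Finset.notMem_erase b S)
          (Finset.erase_subset _ _) (Finset.notMem_empty b) (Finset.disjoint_empty_left _)
        simpa using this

end chain

end Pool.Agent.H99.FR
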