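import Pool.Graph.R_seed8.Y986.FB.Defs

/-!
# The frog model whose particles follow arbitrary rules of motion: definitions
-/

set_option autoImplicit false

namespace Pool.Agent.H99.FR

open FrogGW (Env InTree Survive GW unif Rd Conf cnt sh sub lev vert cross Reach)
open MeasureTheory ProbabilityTheory
open scoped ENNReal NNReal Classical

/-- A rule of motion: it gives the next vertex as a function of the list of the vertices visited so
far (the present vertex is the head of this list) and of a driving number. -/
abbrev Rule := List (List ℕ) → ℝ → List ℕ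

/-- The rule that remains when the walk has left the vertex `x`. -/
def after (r : Rule) (x : List ℕ) : Rule := fun h s => r (h ++ [x]) s

/-- The list of the vertices visited in the first `k` steps by the walk from `x` that is driven by
the sequence `u` and follows the rule `r`. -/
def hist (r : Rule) (x : List ℕ) (u : ℕ → ℝ) : ℕ → List (List ℕ)
  | 0 => [x]
  | k + 1 => r (hist r x u k) (u k) :: hist r x u k

/-- The position after `k` steps. -/
def walk (r : Rule) (x : List ℕ) (u : ℕ → ℝ) (k : ℕ) : List ℕ := (hist r x u k).headD []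

/-- The admissible rules for the tree of `Z`: the walk moves to a neighbour of the present vertex,
and for a number uniform in `[0, 1)` the probability of a step to the parent is at most `b` times
the probability of a step to any of the children; at the root the probability of a step to each
child is at least `δ`. -/
structure Adm (Z : Env) (b δ : ℝ≥0) (r : Rule) : Prop where
  meas : ∀ h y, MeasurableSet {s | r h s = y}
  root : ∀ h s, ∃ i < Z [], r ([] :: h) s = [i]
  nn : ∀ i v h s, r ((i :: v) :: h) s = v ∨ ∃ j < Z (i :: v), r ((i :: v) :: h) s = j :: i :: v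
  rootProb : ∀ h, ∀ i < Z [], (δ : ℝ≥0∞) ≤ unif {s | r ([] :: h) s = [i]}
  bias : ∀ i v h, ∀ j < Z (i :: v), unif {s | r ((i :: v) :: h) s = v} ≤
    b * unif {s | r ((i :: v) :: h) s = j :: i :: v}

/-- The law of the driving numbers of all particles. -/
noncomputable def driving : Measure (List ℕ → ℕ → ℕ → ℝ) :=
  Measure.infinitePi fun _ : List ℕ => Measure.infinitePi fun _ : ℕ =>
    Measure.infinitePi fun _ : ℕ => unif

/-- The law of the configuration when the joint law of the numbers of sleeping particles is `μ`,
and these numbers are independent of the driving numbers. -/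
noncomputable def FM (μ : Measure (List ℕ → ℕ)) : Measure Conf :=
  (μ.prod driving).map fun p v => (p.1 v, p.2 v)

/-- The vertices that are visited by active particles, if the particles starting at `v` follow the
rule `ρ v`. -/
inductive Active (ρ : List ℕ → Rule) (ω : Conf) : List ℕ → Prop
  | root : Active ρ ω []
  | wake {x y : List ℕ} (j k : ℕ) : Active ρ ω x → j < cnt x (ω x) →
      walk (ρ x) x ((ω x).2 j) k = y → Active ρ ω y

/-- The visits to the root by active particles: all `((x, j), k)` such that `x` is visited by an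
active particle and the particle number `j` starting at `x` is at the root after `k` steps. -/
def Visits (ρ : List ℕ → Rule) (ω : Conf) : Set ((List ℕ × ℕ) × ℕ) :=
  {q | Active ρ ω q.1.1 ∧ q.1.2 < cnt q.1.1 (ω q.1.1) ∧
    walk (ρ q.1.1) q.1.1 ((ω q.1.1).2 q.1.2) q.2 = []}

/-! ## Auxiliary definitions -/

/-- The walk from `x` visits `y` within `m` steps, staying below level `N`. -/
def Hit (N : ℕ) : ℕ → Rule → List ℕ → (ℕ → ℝ) → List ℕ → Prop
  | 0, _, x, _, y => x.length < N ∧ x = y
  | m + 1, r, x, u, y => x.length < N ∧
      (x = y ∨ Hit N m (after r x) (r [x] (u 0)) (fun k => u (k + 1)) y)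

/-- Number of root visits plus the weights of the outward crossings, `m` steps, killed at
level `N`. -/
noncomputable def score (N : ℕ) (β : List ℕ → ℝ≥0∞) :
    ℕ → Rule → List ℕ → (ℕ → ℝ) → ℝ≥0∞
  | 0, _, _, _ => 0
  | m + 1, r, x, u => (if x = [] then 1 else 0) + cross β x (r [x] (u 0)) +
      (if (r [x] (u 0)).length < N
        then score N β m (after r x) (r [x] (u 0)) (fun k => u (k + 1)) else 0)

/-- The activation process with walks cut after `N` steps and killed at level `N`. -/
inductive ActiveN (ρ : List ℕ → Rule) (N : ℕ) (ω : Conf) : List ℕ → Prop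
  | root : ActiveN ρ N ω []
  | wake {x y : List ℕ} (j : ℕ) : ActiveN ρ N ω x → j < cnt x (ω x) →
      Hit N N (ρ x) x ((ω x).2 j) y → ActiveN ρ N ω y

/-- The number of root visits in `m` steps, killed at level `N`. -/
noncomputable def vis (N m : ℕ) (r : Rule) (x : List ℕ) (u : ℕ → ℝ) : ℝ≥0∞ :=
  score N (fun _ => 0) m r x u

/-- The number of root visits of the active particles of the cut process. -/
noncomputable def VN (ρ : List ℕ → Rule) (Z : Env) (N : ℕ) (ω : Conf) : ℝ≥0∞ :=
  ∑ z ∈ vert Z N, if ActiveN ρ N ω z then
    ∑ j ∈ Finset.range (cnt z (ω z)), vis N (N + 1) (ρ z) z ((ω z).2 j) else 0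

/-- The directed edges of the comparison process. -/
def edge (ρ : List ℕ → Rule) (b lam γ : ℝ) (N : ℕ) (Z : Env) (x y : List ℕ) (r : Rd) : Prop :=
  ¬ (FrogB.tv b lam γ N Z y <:+ x) ∧
    ∃ j, j < cnt x r ∧ Hit N N (ρ x) x (r.2 j) (FrogB.tv b lam γ N Z y)

variable {Z : Env} {b δ : ℝ≥0} {r : Rule}

theorem Adm.after (h : Adm Z b δ r) (x : List ℕ) : Adm Z b δ (after r x) where
  meas l y := h.meas (l ++ [x]) y
  root l s := h.root (l ++ [x]) s
  nn i v l s := h.nn i v (l ++ [x]) s
  rootProb l := h.rootProb (l ++ [x])
  bias i v l := h.bias i v (l ++ [x])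

theorem Adm.cases (h : Adm Z b δ r) (x : List ℕ) (s : ℝ) :
    (∃ i, r [x] s = i :: x) ∨ ∃ i, x = i :: r [x] s := by
  cases x with
  | nil =>
    obtain ⟨i, _, hi⟩ := h.root [] s
    exact Or.inl ⟨i, hi⟩
  | cons i v =>
    rcases h.nn i v [] s with h1 | ⟨j, _, hj⟩
    · exact Or.inr ⟨i, by rw [h1]⟩
    · exact Or.inl ⟨j, hj⟩

theorem Adm.tree (h : Adm Z b δ r) {x : List ℕ} (hx : InTree Z x) (s : ℝ) :
    InTree Z (r [x] s) := by
  cases x with
  | nil =>
    obtain ⟨i, hi, he⟩ := h.root [] s
    rw [he]
    exact ⟨trivial, hi⟩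
  | cons i v =>
    rcases h.nn i v [] s with h1 | ⟨j, hj, he⟩
    · rw [h1]; exact hx.1
    · rw [he]; exact ⟨hx, hj⟩

end Pool.Agent.H99.FR
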