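import Pool.Agent.H99.FR.Defs
import Pool.Graph.R_seed8.Y986.FB.Dom

/-!
# Frog model with general rules of motion: domination by the comparison process
-/

set_option autoImplicit false

namespace Pool.Agent.H99.FR.Dom

open FrogGW (Env InTree Survive GW unif Rd Conf cnt sh sub lev vert cross Reach ww wn an na)
open scoped Classical NNReal

open Pool.Agent.W605.FG (mem_lev mem_vert)

theorem hit_tree {Z : Env} {b δ : ℝ≥0} {N : ℕ} : ∀ (m : ℕ) (r : Rule) (_ : Adm Z b δ r)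
    (x : List ℕ) (u : ℕ → ℝ)
    (y : List ℕ), Hit N m r x u y → y.length < N ∧ (InTree Z x → InTree Z y)
  | 0, _, _, x, u, y, h => by
    obtain ⟨h1, rfl⟩ := h
    exact ⟨h1, id⟩
  | m + 1, r, hr, x, u, y, h => by
    obtain ⟨h1, h2⟩ := h
    rcases h2 with rfl | h2
    · exact ⟨h1, id⟩
    · obtain ⟨h3, h4⟩ := hit_tree m _ (hr.after x) _ _ _ h2
      exact ⟨h3, fun hx => h4 (hr.tree hx _)⟩

theorem hit_lt {N : ℕ} : ∀ (m : ℕ) (r : Rule) (x : List ℕ) (u : ℕ → ℝ) (y : List ℕ),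
    Hit N m r x u y → x.length < N
  | 0, _, _, _, _, h => h.1
  | _ + 1, _, _, _, _, h => h.1

theorem hit_self {N : ℕ} : ∀ (m : ℕ) (r : Rule) (x : List ℕ) (u : ℕ → ℝ), x.length < N →
    Hit N m r x u x
  | 0, _, _, _, h => ⟨h, rfl⟩
  | _ + 1, _, _, _, h => ⟨h, Or.inl rfl⟩

/-- the key fact: to reach `y` the walk has to visit the ancestors of `y` that are not ancestors
of the starting point -/
theorem hit_suffix {Z : Env} {b δ : ℝ≥0} {N : ℕ} : ∀ (m : ℕ) (r : Rule) (_ : Adm Z b δ r)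
    (x : List ℕ) (u : ℕ → ℝ) (y t : List ℕ),
    Hit N m r x u y → t <:+ y → ¬ t <:+ x → Hit N m r x u t
  | 0, _, _, x, u, y, t, h, h1, h2 => by
    obtain ⟨_, rfl⟩ := h
    exact absurd h1 h2
  | m + 1, r, hr, x, u, y, t, h, h1, h2 => by
    obtain ⟨h3, h4⟩ := h
    rcases h4 with rfl | h4
    · exact absurd h1 h2
    · refine ⟨h3, Or.inr ?_⟩
      by_cases h5 : t <:+ r [x] (u 0)
      · rcases hr.cases x (u 0) with ⟨a, ha⟩ | ⟨i, hi⟩
        · rw [ha, List.suffix_cons_iff] at h5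
          rcases h5 with h5 | h5
          · rw [h5, ← ha]
            exact hit_self m _ _ _ (hit_lt m _ _ _ _ h4)
          · exact absurd h5 h2
        · exfalso
          apply h2
          rw [hi]
          exact h5.trans (List.suffix_cons _ _)
      · exact hit_suffix m _ (hr.after x) _ _ y t h4 h1 h5

theorem dom (ρ : List ℕ → Rule) (bb δ : ℝ≥0) (b lam γ : ℝ) (Z : Env) (hρ : ∀ v, Adm Z bb δ (ρ v))
    (N : ℕ) (ω : Conf) (y : List ℕ) (hN : 1 ≤ N) (hy : ActiveN ρ N ω y) :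
    y ∈ vert Z N ∧ Reach (FrogB.blockRoot b lam γ N Z) (vert Z N) (edge ρ b lam γ N Z) ω y := by
  have main : y ∈ vert Z N ∧
      Reach (FrogB.blockRoot b lam γ N Z) (vert Z N) (edge ρ b lam γ N Z) ω y ∧
      ∀ t : List ℕ, t <:+ y → t ≠ [] → ∃ x, Reach (FrogB.blockRoot b lam γ N Z) (vert Z N)
        (edge ρ b lam γ N Z) ω x ∧ ¬ t <:+ x ∧ ∃ j, j < cnt x (ω x) ∧
          Hit N N (ρ x) x ((ω x).2 j) t := by
    induction hy with
    | root =>
      have h1 : ([] : List ℕ) ∈ vert Z N := (mem_vert Z N []).mpr ⟨trivial, hN⟩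
      refine ⟨h1, Reach.start ?_, ?_⟩
      · unfold FrogB.blockRoot
        rw [Finset.mem_filter]
        exact ⟨h1, rfl⟩
      · intro t ht ht0
        exact absurd (List.suffix_nil.mp ht) ht0
    | @wake x y j hx hj hhit ih =>
      obtain ⟨hxv, hxr, hx3⟩ := ih
      have hxt := ((mem_vert Z N x).mp hxv).1
      obtain ⟨hyl, hyt⟩ := hit_tree N _ (hρ x) x _ y hhit
      have hyv : y ∈ vert Z N := (mem_vert Z N y).mpr ⟨hyt hxt, hyl⟩
      have h3 : ∀ t : List ℕ, t <:+ y → t ≠ [] → ∃ x, Reach (FrogB.blockRoot b lam γ N Z)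
          (vert Z N) (edge ρ b lam γ N Z) ω x ∧ ¬ t <:+ x ∧ ∃ j, j < cnt x (ω x) ∧
            Hit N N (ρ x) x ((ω x).2 j) t := by
        intro t ht ht0
        by_cases htx : t <:+ x
        · exact hx3 t htx ht0
        · exact ⟨x, hxr, htx, j, hj, hit_suffix N _ (hρ x) x _ y t hhit ht htx⟩
      refine ⟨hyv, ?_, h3⟩
      by_cases ht : FrogB.tv b lam γ N Z y = []
      · refine Reach.start ?_
        unfold FrogB.blockRoot
        rw [Finset.mem_filter]
        exact ⟨hyv, ht⟩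
      · obtain ⟨x', hx', h4, j', hj', h5⟩ := h3 _ (FrogB.Dom.tv_suffix b lam γ N Z y) ht
        exact Reach.step hx' hyv ⟨h4, j', hj', h5⟩
  exact ⟨main.1, main.2.1⟩

end Pool.Agent.H99.FR.Dom
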