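import Pool.Agent.H99.FR.Meas
import Pool.Graph.R_seed8.W363.FG.Lim
import Pool.Graph.R_seed8.W605.FG.Dom

/-!
# Frog model with general rules of motion: from the cut processes to the model
-/

set_option autoImplicit false

namespace Pool.Agent.H99.FR.Lim

open Pool.Agent.H99.FR
open FrogGW (Env InTree Survive GW unif Rd Conf cnt sh sub lev vert cross Reach ww wn an na)
open MeasureTheory ProbabilityTheory Filter
open scoped ENNReal NNReal Classical
open Pool.Agent.W363.FG (cons_mem_lev vert_mono meas_cnt)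

theorem hit_mono {N N' : ℕ} (hN : N ≤ N') (m : ℕ) : ∀ (m' : ℕ) (r : Rule) (x : List ℕ)
    (u : ℕ → ℝ) (y : List ℕ), m ≤ m' → Hit N m r x u y → Hit N' m' r x u y := by
  induction m with
  | zero =>
    intro m' r x u y _ h
    obtain ⟨h1, h2⟩ := h
    cases m' with
    | zero => exact ⟨h1.trans_le hN, h2⟩
    | succ m' => exact ⟨h1.trans_le hN, Or.inl h2⟩
  | succ m ih =>
    intro m' r x u y hm h
    obtain ⟨h1, h2⟩ := h
    cases m' with
    | zero => omega
    | succ m' =>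
      refine ⟨h1.trans_le hN, ?_⟩
      rcases h2 with h2 | h2
      · exact Or.inl h2
      · exact Or.inr (ih m' _ _ _ _ (by omega) h2)

theorem activeN_mono (ρ : List ℕ → Rule) {N N' : ℕ} (hN : N ≤ N') (ω : Conf) (y : List ℕ)
    (h : ActiveN ρ N ω y) : ActiveN ρ N' ω y := by
  induction h with
  | root => exact ActiveN.root
  | wake j _ hj hh ih => exact ActiveN.wake j ih hj (hit_mono hN N N' _ _ _ _ hN hh)

theorem hist_succ (r : Rule) (x : List ℕ) (u : ℕ → ℝ) (k : ℕ) :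
    hist r x u (k + 1) = hist (after r x) (r [x] (u 0)) (fun i => u (i + 1)) k ++ [x] := by
  induction k with
  | zero => rfl
  | succ k ih =>
    change r (hist r x u (k + 1)) (u (k + 1)) :: hist r x u (k + 1) = _
    rw [ih]
    rfl

theorem hist_ne (r : Rule) (x : List ℕ) (u : ℕ → ℝ) (k : ℕ) : hist r x u k ≠ [] := by
  cases k with
  | zero => simp [hist]
  | succ k => simp [hist]

theorem walk_succ (r : Rule) (x : List ℕ) (u : ℕ → ℝ) (k : ℕ) :
    walk r x u (k + 1) = walk (after r x) (r [x] (u 0)) (fun i => u (i + 1)) k := by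
  unfold walk
  rw [hist_succ]
  have := hist_ne (after r x) (r [x] (u 0)) (fun i => u (i + 1)) k
  obtain ⟨a, l, h⟩ := List.exists_cons_of_ne_nil this
  rw [h]
  rfl

theorem walk_hit (N : ℕ) (y : List ℕ) (k : ℕ) :
    ∀ (m : ℕ) (r : Rule) (x : List ℕ) (u : ℕ → ℝ),
    k ≤ m → (∀ i ≤ k, (walk r x u i).length < N) → walk r x u k = y →
      Hit N m r x u y := by
  induction k with
  | zero =>
    intro m r x u _ hl hw
    have h1 : x.length < N := hl 0 le_rfl
    have h2 : x = y := hw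
    cases m with
    | zero => exact ⟨h1, h2⟩
    | succ m => exact ⟨h1, Or.inl h2⟩
  | succ k ih =>
    intro m r x u hm hl hw
    have h1 : x.length < N := hl 0 (Nat.zero_le _)
    cases m with
    | zero => omega
    | succ m =>
      refine ⟨h1, Or.inr (ih m _ _ _ (by omega) (fun i hi => ?_) ?_)⟩
      · rw [← walk_succ]
        exact hl (i + 1) (by omega)
      · rw [← walk_succ]
        exact hw

theorem walk_len_large (r : Rule) (x : List ℕ) (u : ℕ → ℝ) (k : ℕ) :
    ∃ N₀, k < N₀ ∧ ∀ N, N₀ ≤ N → ∀ i ≤ k, (walk r x u i).length < N := by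
  refine ⟨k + 1 + ∑ i ∈ Finset.range (k + 1), (walk r x u i).length, by omega,
    fun N hN i hi => ?_⟩
  have h1 := Finset.single_le_sum (f := fun i => (walk r x u i).length)
    (fun _ _ => Nat.zero_le _) (Finset.mem_range.2 (by omega : i < k + 1))
  omega

theorem walk_hit_large (r : Rule) (x y : List ℕ) (u : ℕ → ℝ) (k : ℕ)
    (h : walk r x u k = y) : ∃ N₀, ∀ N, N₀ ≤ N → Hit N N r x u y := by
  obtain ⟨N₀, h0, h1⟩ := walk_len_large r x u k
  exact ⟨N₀, fun N hN => walk_hit N y k N r x u (by omega) (h1 N hN) h⟩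

theorem active_large (ρ : List ℕ → Rule) (ω : Conf) (y : List ℕ) (h : Active ρ ω y) :
    ∃ N₀, ∀ N, N₀ ≤ N → ActiveN ρ N ω y := by
  induction h with
  | root => exact ⟨0, fun _ _ => ActiveN.root⟩
  | @wake x y j k _ hj hw ih =>
    obtain ⟨N₁, h1⟩ := ih
    obtain ⟨N₂, h2⟩ := walk_hit_large (ρ x) x y _ k hw
    refine ⟨max N₁ N₂, fun N hN => ?_⟩
    exact ActiveN.wake j (h1 N ((le_max_left _ _).trans hN)) hj
      (h2 N ((le_max_right _ _).trans hN))

/-! ### the tree -/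

theorem walk_mem (Z : Env) (b δ : ℝ≥0) (k : ℕ) : ∀ (r : Rule) (_ : Adm Z b δ r) (x : List ℕ)
    (u : ℕ → ℝ) (_ : InTree Z x), InTree Z (walk r x u k) := by
  induction k with
  | zero => intro r _ x u hx; exact hx
  | succ k ih =>
    intro r hr x u hx
    rw [walk_succ]
    exact ih _ (hr.after x) _ _ (hr.tree hx _)

theorem active_mem (ρ : List ℕ → Rule) (Z : Env) (b δ : ℝ≥0) (hρ : ∀ v, Adm Z b δ (ρ v))
    (ω : Conf) (y : List ℕ) (h : Active ρ ω y) : InTree Z y := by
  induction h with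
  | root => trivial
  | @wake x y j k _ hj hw ih =>
    rw [← hw]
    exact walk_mem Z b δ k _ (hρ x) x _ ih

/-! ### the counted visits -/

/-- the visit after `k` steps is counted -/
def good (N : ℕ) (r : Rule) (x : List ℕ) (u : ℕ → ℝ) (k : ℕ) : Prop :=
  walk r x u k = [] ∧ ∀ i < k, (walk r x u (i + 1)).length < N

theorem vis_succ (N m : ℕ) (r : Rule) (x : List ℕ) (u : ℕ → ℝ) :
    vis N (m + 1) r x u = (if x = [] then 1 else 0) +
      (if (r [x] (u 0)).length < N
        then vis N m (after r x) (r [x] (u 0)) (fun k => u (k + 1)) else 0) := by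
  unfold vis
  rw [score]
  have : cross (fun _ => (0 : ℝ≥0∞)) x (r [x] (u 0)) = 0 := by
    unfold cross; split_ifs <;> rfl
  rw [this, add_zero]

theorem good_succ (N : ℕ) (r : Rule) (x : List ℕ) (u : ℕ → ℝ) (k : ℕ) :
    good N r x u (k + 1) ↔ (r [x] (u 0)).length < N ∧
      good N (after r x) (r [x] (u 0)) (fun i => u (i + 1)) k := by
  unfold good
  rw [walk_succ]
  constructor
  · rintro ⟨h1, h2⟩
    refine ⟨h2 0 (by omega), h1, fun i hi => ?_⟩
    have := h2 (i + 1) (by omega)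
    rwa [walk_succ] at this
  · rintro ⟨h1, h2, h3⟩
    refine ⟨h2, fun i hi => ?_⟩
    cases i with
    | zero => exact h1
    | succ i =>
      rw [walk_succ]
      exact h3 i (by omega)

theorem vis_eq (N m : ℕ) : ∀ (r : Rule) (x : List ℕ) (u : ℕ → ℝ),
    vis N m r x u = ∑ k ∈ Finset.range m, if good N r x u k then (1 : ℝ≥0∞) else 0 := by
  induction m with
  | zero => intro r x u; rfl
  | succ m ih =>
    intro r x u
    rw [vis_succ, Finset.sum_range_succ', add_comm]
    congr 1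
    · by_cases h : (r [x] (u 0)).length < N
      · rw [if_pos h, ih]
        refine Finset.sum_congr rfl fun k _ => ?_
        simp only [good_succ, h, true_and]
      · rw [if_neg h]
        refine (Finset.sum_eq_zero fun k _ => ?_).symm
        rw [if_neg]
        rw [good_succ]
        exact fun h' => h h'.1
    · have : good N r x u 0 ↔ x = [] := by
        unfold good
        simp [walk, hist]
      simp only [this]

/-- the visit `q` is counted -/
def cond (ρ : List ℕ → Rule) (Z : Env) (N : ℕ) (ω : Conf) (q : (List ℕ × ℕ) × ℕ) : Prop :=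
  q.1.1 ∈ vert Z N ∧ ActiveN ρ N ω q.1.1 ∧ q.1.2 < cnt q.1.1 (ω q.1.1) ∧
    q.2 < N + 1 ∧ good N (ρ q.1.1) q.1.1 ((ω q.1.1).2 q.1.2) q.2

theorem cond_mono (ρ : List ℕ → Rule) (Z : Env) {N N' : ℕ} (hN : N ≤ N') (ω : Conf) (q : (List ℕ × ℕ) × ℕ)
    (h : cond ρ Z N ω q) : cond ρ Z N' ω q :=
  ⟨vert_mono Z hN h.1, activeN_mono ρ hN ω _ h.2.1, h.2.2.1, h.2.2.2.1.trans_le (by omega),
    h.2.2.2.2.1, fun i hi => (h.2.2.2.2.2 i hi).trans_le hN⟩

theorem tsum_ite_finset {α : Type} (s : Finset α) (p : α → Prop) (f : α → ℝ≥0∞)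
    (hp : ∀ a, p a → a ∈ s) :
    ∑' a, (if p a then f a else 0) = ∑ a ∈ s, if p a then f a else 0 := by
  rw [tsum_eq_sum]
  intro a ha
  rw [if_neg]
  exact fun h => ha (hp a h)

theorem VN_eq (ρ : List ℕ → Rule) (Z : Env) (N : ℕ) (ω : Conf) :
    VN ρ Z N ω = ∑' q : (List ℕ × ℕ) × ℕ, if cond ρ Z N ω q then (1 : ℝ≥0∞) else 0 := by
  rw [ENNReal.tsum_prod']
  rw [ENNReal.tsum_prod']
  have h0 : ∀ (z : List ℕ) (j : ℕ),
      ∑' k : ℕ, (if cond ρ Z N ω ((z, j), k) then (1 : ℝ≥0∞) else 0) =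
      if z ∈ vert Z N ∧ ActiveN ρ N ω z ∧ j < cnt z (ω z) then
        vis N (N + 1) (ρ z) z ((ω z).2 j) else 0 := by
    intro z j
    by_cases h : z ∈ vert Z N ∧ ActiveN ρ N ω z ∧ j < cnt z (ω z)
    · rw [if_pos h, vis_eq, tsum_eq_sum (s := Finset.range (N + 1))]
      · refine Finset.sum_congr rfl fun k hk => ?_
        have : cond ρ Z N ω ((z, j), k) ↔ good N (ρ z) z ((ω z).2 j) k :=
          ⟨fun h => h.2.2.2.2, fun h' => ⟨h.1, h.2.1, h.2.2, Finset.mem_range.1 hk, h'⟩⟩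
        simp only [this]
      · intro k hk
        rw [if_neg]
        intro h'
        exact hk (Finset.mem_range.2 h'.2.2.2.1)
    · rw [if_neg h, ENNReal.tsum_eq_zero]
      intro k
      rw [if_neg]
      exact fun h' => h ⟨h'.1, h'.2.1, h'.2.2.1⟩
  have h1 : ∀ z : List ℕ, ∑' j : ℕ, ∑' k : ℕ,
      (if cond ρ Z N ω ((z, j), k) then (1 : ℝ≥0∞) else 0) =
      if z ∈ vert Z N then (if ActiveN ρ N ω z then
        ∑ j ∈ Finset.range (cnt z (ω z)), vis N (N + 1) (ρ z) z ((ω z).2 j) else 0)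
      else 0 := by
    intro z
    simp only [h0]
    by_cases hz : z ∈ vert Z N
    · by_cases ha : ActiveN ρ N ω z
      · rw [if_pos hz, if_pos ha, tsum_eq_sum (s := Finset.range (cnt z (ω z)))]
        · refine Finset.sum_congr rfl fun j hj => ?_
          rw [if_pos ⟨hz, ha, Finset.mem_range.1 hj⟩]
        · intro j hj
          rw [if_neg]
          intro h
          exact hj (Finset.mem_range.2 h.2.2)
      · rw [if_pos hz, if_neg ha, ENNReal.tsum_eq_zero]
        intro j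
        rw [if_neg]
        exact fun h => ha h.2.1
    · rw [if_neg hz, ENNReal.tsum_eq_zero]
      intro j
      rw [if_neg]
      exact fun h => hz h.1
  rw [tsum_congr h1, tsum_eq_sum (s := vert Z N)]
  · unfold VN
    refine Finset.sum_congr rfl fun z hz => ?_
    rw [if_pos hz]
  · intro z hz
    rw [if_neg hz]

theorem VN_mono (ρ : List ℕ → Rule) (Z : Env) {N N' : ℕ} (hN : N ≤ N') (ω : Conf) :
    VN ρ Z N ω ≤ VN ρ Z N' ω := by
  rw [VN_eq, VN_eq]
  refine ENNReal.tsum_le_tsum fun q => ?_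
  by_cases h : cond ρ Z N ω q
  · rw [if_pos h, if_pos (cond_mono ρ Z hN ω q h)]
  · rw [if_neg h]
    exact bot_le

/-! ### measurability -/

theorem meas_hit' {r : Rule} (hr : MeasRule r) (N : ℕ) (x : List ℕ) (j : ℕ) (y : List ℕ) :
    MeasurableSet {ω : Conf | Hit N N r x ((ω x).2 j) y} := by
  have h1 : Measurable fun ω : Conf => (ω x).2 j :=
    (measurable_pi_apply j).comp (measurable_snd.comp (measurable_pi_apply x))
  exact h1 (meas_hit N N hr x y)

/-- generations of the activation process -/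
def gen (ρ : List ℕ → Rule) (N : ℕ) (ω : Conf) : ℕ → List ℕ → Prop
  | 0, y => y = []
  | n + 1, y => ∃ x : List ℕ, ∃ j : ℕ, gen ρ N ω n x ∧ (y = x ∨ (j < cnt x (ω x) ∧
      Hit N N (ρ x) x ((ω x).2 j) y))

theorem gen_iff (ρ : List ℕ → Rule) (N : ℕ) (ω : Conf) (y : List ℕ) :
    ActiveN ρ N ω y ↔ ∃ n, gen ρ N ω n y := by
  constructor
  · intro h
    induction h with
    | root => exact ⟨0, rfl⟩
    | @wake x y j _ hj hh ih =>
      obtain ⟨n, hn⟩ := ih
      exact ⟨n + 1, x, j, hn, Or.inr ⟨hj, hh⟩⟩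
  · rintro ⟨n, hn⟩
    induction n generalizing y with
    | zero =>
      have : y = [] := hn
      rw [this]
      exact ActiveN.root
    | succ n ih =>
      obtain ⟨x, j, h1, h2⟩ := hn
      have h3 := ih x h1
      rcases h2 with rfl | ⟨h4, h5⟩
      · exact h3
      · exact ActiveN.wake j h3 h4 h5

theorem meas_gen (ρ : List ℕ → Rule) (hρ : ∀ v, MeasRule (ρ v)) (N n : ℕ) :
    ∀ y, MeasurableSet {ω : Conf | gen ρ N ω n y} := by
  induction n with
  | zero =>
    intro y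
    by_cases h : y = []
    · have : {ω : Conf | gen ρ N ω 0 y} = Set.univ := by
        ext ω
        simp [gen, h]
      rw [this]
      exact MeasurableSet.univ
    · have : {ω : Conf | gen ρ N ω 0 y} = ∅ := by
        ext ω
        simp [gen, h]
      rw [this]
      exact MeasurableSet.empty
  | succ n ih =>
    intro y
    have : {ω : Conf | gen ρ N ω (n + 1) y} = ⋃ x : List ℕ, ⋃ j : ℕ,
        ({ω : Conf | gen ρ N ω n x} ∩ ({ω : Conf | y = x} ∪
          ({ω : Conf | j < cnt x (ω x)} ∩ {ω : Conf | Hit N N (ρ x) x ((ω x).2 j) y}))) := by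
      ext ω
      simp only [gen, Set.mem_ofPred_eq, Set.mem_iUnion, Set.mem_inter_iff, Set.mem_union]
    rw [this]
    refine MeasurableSet.iUnion fun x => MeasurableSet.iUnion fun j => ?_
    exact (ih x).inter ((MeasurableSet.const _).union ((meas_cnt x j).inter
      (meas_hit' (hρ x) N x j y)))

theorem meas_active (ρ : List ℕ → Rule) (hρ : ∀ v, MeasRule (ρ v)) (N : ℕ) (y : List ℕ) :
    MeasurableSet {ω : Conf | ActiveN ρ N ω y} := by
  have : {ω : Conf | ActiveN ρ N ω y} = ⋃ n : ℕ, {ω : Conf | gen ρ N ω n y} := by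
    ext ω
    simp only [Set.mem_ofPred_eq, Set.mem_iUnion]
    exact gen_iff ρ N ω y
  rw [this]
  exact MeasurableSet.iUnion fun n => meas_gen ρ hρ N n y

theorem meas_VN (ρ : List ℕ → Rule) (hρ : ∀ v, MeasRule (ρ v)) (Z : Env) (N : ℕ) : Measurable fun ω => VN ρ Z N ω := by
  unfold VN
  refine Finset.measurable_sum _ fun z _ => ?_
  refine Measurable.ite (meas_active ρ hρ N z) ?_ measurable_const
  have h1 : ∀ ω : Conf, ∑ j ∈ Finset.range (cnt z (ω z)), vis N (N + 1) (ρ z) z ((ω z).2 j) =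
      ∑' j : ℕ, (if j < cnt z (ω z) then vis N (N + 1) (ρ z) z ((ω z).2 j) else 0) := by
    intro ω
    rw [tsum_eq_sum (s := Finset.range (cnt z (ω z)))]
    · refine Finset.sum_congr rfl fun j hj => ?_
      rw [if_pos (Finset.mem_range.1 hj)]
    · intro j hj
      rw [if_neg (by simpa using hj)]
  simp only [h1]
  refine Measurable.ennreal_tsum fun j => ?_
  refine Measurable.ite (meas_cnt z j) ?_ measurable_const
  have h2 : Measurable fun ω : Conf => (ω z).2 j :=
    (measurable_pi_apply j).comp (measurable_snd.comp (measurable_pi_apply z))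
  exact (meas_score N (fun _ => 0) (N + 1) (ρ z) (hρ z) z).comp h2

theorem lim (ρ : List ℕ → Rule) (M : Measure Conf) (Z : Env) (b δ : ℝ≥0)
    (hρ : ∀ v, Adm Z b δ (ρ v)) (C : ℝ≥0)
    (hC : ∃ᶠ N in atTop, ∫⁻ ω, VN ρ Z N ω ∂M ≤ C) :
    ∫⁻ ω, ((Visits ρ ω).encard : ℝ≥0∞) ∂M ≤ C ∧
    ∀ᵐ ω ∂M, (Visits ρ ω).Finite := by
  have hmono : Monotone fun (N : ℕ) (ω : Conf) => VN ρ Z N ω := fun N N' h ω => VN_mono ρ Z h ω
  have hbd : ∀ N, ∫⁻ ω, VN ρ Z N ω ∂M ≤ C := by
    intro N
    obtain ⟨N', h1, h2⟩ := (frequently_atTop.1 hC) N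
    exact (lintegral_mono (fun ω => VN_mono ρ Z h1 ω)).trans h2
  have hsup : ∫⁻ ω, ⨆ N, VN ρ Z N ω ∂M ≤ C := by
    rw [lintegral_iSup (fun N => meas_VN ρ (fun v => (hρ v).meas) Z N) hmono]
    exact iSup_le hbd
  have hkey : ∀ ω : Conf, ((Visits ρ ω).encard : ℝ≥0∞) ≤ ⨆ N, VN ρ Z N ω := by
    intro ω
    rw [← ENNReal.tsum_set_one, ENNReal.tsum_eq_iSup_sum]
    refine iSup_le fun F => ?_
    have hev : ∀ q ∈ F, ∀ᶠ N : ℕ in atTop, cond ρ Z N ω q.1 := by
      intro q _
      obtain ⟨h1, h2, h3⟩ := q.2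
      obtain ⟨N₁, hN₁⟩ := active_large ρ ω _ h1
      obtain ⟨N₂, hk, hN₂⟩ := walk_len_large (ρ q.1.1.1) q.1.1.1 ((ω q.1.1.1).2 q.1.1.2) q.1.2
      filter_upwards [eventually_ge_atTop N₁, eventually_ge_atTop N₂,
        eventually_gt_atTop q.1.1.1.length] with N g1 g2 g3
      exact ⟨(Pool.Agent.W605.FG.mem_vert Z N _).2 ⟨active_mem ρ Z b δ hρ ω _ h1, g3⟩, hN₁ N g1, h2, by omega, h3,
        fun i hi => hN₂ N g2 (i + 1) (by omega)⟩
    have hev2 : ∀ᶠ N : ℕ in atTop, ∀ q ∈ F, cond ρ Z N ω q.1 :=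
      (Filter.eventually_all_finset F).2 hev
    obtain ⟨N, hN⟩ := hev2.exists
    refine le_trans ?_ (le_iSup (fun N => VN ρ Z N ω) N)
    rw [VN_eq]
    calc ∑ q ∈ F, (1 : ℝ≥0∞) = ∑ q ∈ F, (if cond ρ Z N ω q.1 then (1 : ℝ≥0∞) else 0) :=
          Finset.sum_congr rfl fun q hq => (if_pos (hN q hq)).symm
      _ = ∑ q ∈ F.map (Function.Embedding.subtype _),
            (if cond ρ Z N ω q then (1 : ℝ≥0∞) else 0) := by
          rw [Finset.sum_map]
          rfl
      _ ≤ _ := ENNReal.sum_le_tsum _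
  refine ⟨(lintegral_mono hkey).trans hsup, ?_⟩
  have hfin : ∀ᵐ ω ∂M, ⨆ N, VN ρ Z N ω < ∞ := by
    refine ae_lt_top (Measurable.iSup fun N => meas_VN ρ (fun v => (hρ v).meas) Z N) ?_
    exact (hsup.trans_lt ENNReal.coe_lt_top).ne
  filter_upwards [hfin] with ω hω
  have h1 := (hkey ω).trans_lt hω
  rw [← Set.encard_lt_top_iff]
  by_contra h2
  have h3 : (Visits ρ ω).encard = ⊤ := not_lt_top_iff.1 h2
  rw [h3] at h1
  simp at h1

end Pool.Agent.H99.FR.Lim
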