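import Pool.Agent.H99.FR.Quench
import Pool.Agent.H99.FR.Lim
import Pool.Graph.R_seed8.Y986.FB.Final

/-!
# Frog model with general rules of motion: final assembly
-/

set_option autoImplicit false

namespace Pool.Agent.H99.FR

open FrogGW (Env InTree Survive GW unif Rd Conf cnt sh sub lev vert cross Reach ww wn an na)
open MeasureTheory ProbabilityTheory Filter
open scoped ENNReal NNReal Classical
open FrogB (tv trig pot bet TH AA TA blockRoot cf taskTA taskComp)

theorem final (hTr : FrogGW.TaskTree) (hseq : FrogGW.TaskSeq) (hW : FrogGW.TaskW)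
    (hE : FrogGW.TaskExt)
    (hMo : ∀ (p : Measure ℕ) [IsProbabilityMeasure p] (γ ρ : ℝ), 0 < γ → γ < 1 → 0 < ρ → ρ < 1 →
      1 < ENNReal.ofReal ρ * ∫⁻ k, (k : ℝ≥0∞) ∂p →
      ∃ lam : ℝ≥0, 0 < lam ∧ ∃ C : ℝ≥0, ∀ n,
        ∫⁻ Z, ENNReal.ofReal (an ρ lam γ n Z) ∂(GW p) ≤ C)
    (p : Measure ℕ) [IsProbabilityMeasure p] (hp : 1 < ∫⁻ k, (k : ℝ≥0∞) ∂p)
    (b : ℝ≥0) (hb : 0 < b) (hbp : (b : ℝ≥0∞) < ∫⁻ k, (k : ℝ≥0∞) ∂p) :
    ∃ lam : ℝ≥0, 0 < lam ∧ MeasurableSet Survive ∧
      ∀ᵐ Z ∂(GW p), Z ∈ Survive → 1 ≤ Z [] ∧ ∃ C : ℝ≥0, ∀ (δ : ℝ≥0), 0 < δ →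
        ∀ (R : List ℕ → Rule), (∀ v, Adm Z b δ (R v)) →
        ∀ (μ : Measure (List ℕ → ℕ)) [IsProbabilityMeasure μ], MomentBound lam μ →
        ∫⁻ ω, ((Visits R ω).encard : ℝ≥0∞) ∂(FM μ) ≤ C / δ ∧
        ∀ᵐ ω ∂(FM μ), (Visits R ω).Finite := by
  have hb' : (0 : ℝ) < b := hb
  have hBm : ENNReal.ofReal (max (b : ℝ) 1) < ∫⁻ k, (k : ℝ≥0∞) ∂p := by
    rcases le_total (b : ℝ) 1 with h | h
    · rw [max_eq_right h, ENNReal.ofReal_one]; exact hp
    · rw [max_eq_left h, ENNReal.ofReal_coe_nnreal]; exact hbp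
  obtain ⟨γ, hg0, hg1, hγ⟩ := FrogB.exists_gamma (max (b : ℝ) 1) (le_max_right _ _) hBm
  have hC := fun (lam : ℝ) (hl : 0 < lam) => taskComp hW b lam γ hb' hl hg0 hg1
  set ρ := (1 - γ) / ((1 + γ) * max (b : ℝ) 1) with hρ
  have hB1 : 1 ≤ max (b : ℝ) 1 := le_max_right _ _
  have hρ0 : 0 < ρ := div_pos (by linarith) (by positivity)
  have hρ1 : ρ < 1 := by
    rw [hρ, div_lt_one (by positivity)]
    nlinarith
  obtain ⟨lam, hlam, C, hCb⟩ := hMo p γ ρ hg0 hg1 hρ0 hρ1 hγ
  obtain ⟨hSm, hSpos⟩ := hE p ρ hρ0 hρ1 hγ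
  obtain ⟨_, hwm, _, hw01, hwrec, hanm⟩ := hW ρ hρ0 hρ1
  have hl' : (0 : ℝ) < lam := hlam
  have hta := taskTA b lam γ hb' hl' hg0 hg1.le
  refine ⟨lam, hlam, hSm, ?_⟩
  set m := Measure.infinitePi fun _ : ℕ => GW p with hm
  -- Fatou
  have hfat : ∀ k : ℕ, ∀ᵐ Y ∂m,
      liminf (fun n => ∑ i ∈ Finset.range k, ENNReal.ofReal (an ρ lam γ n (Y i))) atTop < ⊤ := by
    intro k
    have hme : ∀ n, Measurable fun Y : ℕ → Env =>
        ∑ i ∈ Finset.range k, ENNReal.ofReal (an ρ lam γ n (Y i)) := by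
      intro n
      exact Finset.measurable_sum _ fun i _ =>
        ((hanm lam γ n).comp (measurable_pi_apply i)).ennreal_ofReal
    refine ae_lt_top (Measurable.liminf hme) ?_
    refine ne_of_lt (lt_of_le_of_lt (lintegral_liminf_le hme) ?_)
    have hb : ∀ n, ∫⁻ Y, ∑ i ∈ Finset.range k, ENNReal.ofReal (an ρ lam γ n (Y i)) ∂m ≤
        (k : ℝ≥0∞) * C := by
      intro n
      rw [lintegral_finsetSum]
      · calc ∑ i ∈ Finset.range k, ∫⁻ Y, ENNReal.ofReal (an ρ lam γ n (Y i)) ∂m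
            ≤ ∑ _i ∈ Finset.range k, (C : ℝ≥0∞) := by
              refine Finset.sum_le_sum fun i _ => ?_
              have := (measurePreserving_eval_infinitePi (fun _ : ℕ => GW p) i).lintegral_comp
                (f := fun Z => ENNReal.ofReal (an ρ lam γ n Z)) (hanm lam γ n).ennreal_ofReal
              simp only [Function.eval] at this
              rw [this]
              exact hCb n
          _ = (k : ℝ≥0∞) * C := by simp
      · intro i _
        exact ((hanm lam γ n).comp (measurable_pi_apply i)).ennreal_ofReal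
    exact lt_of_le_of_lt (liminf_le_of_frequently_le' (Frequently.of_forall hb))
      (ENNReal.mul_lt_top (ENNReal.natCast_lt_top k) ENNReal.coe_lt_top)
  have hfat' : ∀ᵐ Z ∂(GW p), ∀ k : ℕ,
      liminf (fun n => ∑ i ∈ Finset.range k, ENNReal.ofReal (an ρ lam γ n (sh i Z))) atTop
        < ⊤ := by
    have h1 : MeasurePreserving (fun Z : Env => fun i : ℕ => sh i Z) (GW p) m :=
      (measurePreserving_snd (μ := p) (ν := m)).comp (hTr p)
    exact h1.quasiMeasurePreserving.ae (ae_all_iff.2 hfat)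
  filter_upwards [hfat', hSpos] with Z hZ1 hZ2 hZS
  have hwpos := hZ2 hZS
  -- some child has positive w
  have hsum : 0 < ∑ i ∈ Finset.range (Z []), ww ρ (sh i Z) := by
    by_contra h
    have h0 : ∑ i ∈ Finset.range (Z []), ww ρ (sh i Z) = 0 :=
      le_antisymm (not_lt.1 h) (Finset.sum_nonneg fun i _ => (hw01 _).1)
    rw [Finset.sum_eq_zero_iff_of_nonneg fun i _ => (hw01 _).1] at h0
    have : ∏ i ∈ Finset.range (Z []), (1 - ww ρ (sh i Z)) = 1 :=
      Finset.prod_eq_one fun i hi => by rw [h0 i hi]; ring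
    rw [hwrec Z, this] at hwpos
    simp at hwpos
  have hZ0 : 1 ≤ Z [] := by
    by_contra h
    have : Z [] = 0 := by omega
    rw [this] at hsum
    simp at hsum
  refine ⟨hZ0, ?_⟩
  set c0 := γ * ∑ i ∈ Finset.range (Z []), ww ρ (sh i Z) with hc0
  have hc0pos : 0 < c0 := mul_pos hg0 hsum
  have hTH : ∀ N, c0 ≤ TH b lam γ N Z [] := by
    intro N
    rw [hc0, TH, Finset.mul_sum]
    exact Finset.sum_le_sum fun i _ => (hC lam hl' _ _).2
  have hAA : ∀ N, AA b lam γ N Z [] - lam ≤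
      ∑ i ∈ Finset.range (Z []), an ρ lam γ (N - 1) (sh i Z) := by
    intro N
    rw [AA, add_sub_cancel_left]
    exact Finset.sum_le_sum fun i _ => (hC lam hl' _ _).1
  have hAA0 : ∀ N, 0 ≤ AA b lam γ N Z [] - lam := by
    intro N
    rw [AA, add_sub_cancel_left]
    exact Finset.sum_nonneg fun i _ => (hta _ _).1
  obtain ⟨L, hL1, hL2⟩ := ENNReal.lt_iff_exists_nnreal_btwn.1 (hZ1 (Z []))
  have hfr := frequently_lt_of_liminf_lt (by isBoundedDefault) hL1
  have hCnn : (0 : ℝ) ≤ (Z [] : ℝ) / (b * c0) * (1 + L) := by positivity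
  refine ⟨Real.toNNReal ((Z [] : ℝ) / (b * c0) * (1 + L)), ?_⟩
  intro δ hδ R hR μ _ hμ
  have hδ' : (0 : ℝ) < δ := hδ
  rw [← ENNReal.coe_div hδ.ne']
  apply Lim.lim R (FM μ) Z b δ hR
  have hfr' : ∃ᶠ N in atTop, 1 ≤ N ∧
      ∑ i ∈ Finset.range (Z []), ENNReal.ofReal (an ρ lam γ (N - 1) (sh i Z)) < L := by
    rw [frequently_atTop] at hfr ⊢
    intro n
    obtain ⟨k, hk, hk'⟩ := hfr n
    exact ⟨k + 1, by omega, by omega, by simpa using hk'⟩
  refine hfr'.mono fun N hN => ?_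
  obtain ⟨hN1, hN2⟩ := hN
  have hTHp : 0 < TH b lam γ N Z [] := hc0pos.trans_le (hTH N)
  refine (quench hseq b δ hb hδ lam γ hlam hg0 hg1.le Z N hN1 hTHp R hR μ hμ).trans ?_
  have hsumL : ∑ i ∈ Finset.range (Z []), an ρ lam γ (N - 1) (sh i Z) ≤ L := by
    rw [← ENNReal.ofReal_sum_of_nonneg, ← ENNReal.ofReal_coe_nnreal] at hN2
    · exact (ENNReal.ofReal_lt_ofReal_iff_of_nonneg (by
        refine Finset.sum_nonneg fun i _ => ?_
        exact (hta _ _).1.trans (hC lam hl' _ _).1)).1 hN2 |>.le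
    · intro i _
      exact (hta _ _).1.trans (hC lam hl' _ _).1
  have h1 : (Z [] : ℝ) / (b * TH b lam γ N Z []) ≤ (Z [] : ℝ) / (b * c0) :=
    div_le_div_of_nonneg_left (Nat.cast_nonneg _) (mul_pos hb' hc0pos)
      (mul_le_mul_of_nonneg_left (hTH N) hb'.le)
  have h2 : 1 + (AA b lam γ N Z [] - lam) ≤ 1 + L := by
    have := hAA N
    linarith
  have h3 : 0 ≤ 1 + (AA b lam γ N Z [] - lam) := by
    have := hAA0 N
    linarith
  have h4 := mul_le_mul h1 h2 h3 (by positivity)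
  rw [← ENNReal.ofReal_coe_nnreal]
  refine ENNReal.ofReal_le_ofReal ?_
  rw [NNReal.coe_div, Real.coe_toNNReal _ hCnn]
  refine (mul_le_mul_of_nonneg_left h4 (inv_nonneg.2 hδ'.le)).trans (le_of_eq ?_)
  rw [inv_mul_eq_div]

/-! ### Biased random walks and independent numbers -/

/-- The rule of the random walk of bias `b`: at a vertex with `k` children which is not the root
it moves to each child with probability `1 / (k + b)` and to the parent with probability
`b / (k + b)`; at the root it moves to a uniformly chosen child. -/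
noncomputable def biased (b : ℝ≥0) (Z : Env) : Rule := fun h s => FrogB.step b Z (h.headD []) s

theorem unif_eq (f : ℝ → List ℕ) (hf : ∀ y, MeasurableSet {s | f s = y}) (y : List ℕ) :
    ∫⁻ s, (if f s = y then 1 else 0) ∂unif = unif {s | f s = y} := by
  rw [← lintegral_indicator_one (hf y)]
  refine lintegral_congr fun s => ?_
  by_cases h : f s = y
  · rw [if_pos h, Set.indicator_of_mem (by exact h)]
    rfl
  · rw [if_neg h, Set.indicator_of_notMem (by exact h)]

theorem adm_biased (b : ℝ≥0) (hb : 0 < b) (Z : Env) (hZ : 1 ≤ Z []) :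
    Adm Z b ((Z [] : ℝ≥0)⁻¹) (biased b Z) := by
  have hb' : (0 : ℝ) < b := hb
  have hm : ∀ x y, MeasurableSet {s | FrogB.step b Z x s = y} := by
    intro x y
    obtain ⟨g, h, hg, hgh⟩ := FrogB.step_fac (b : ℝ) Z x
    have : {s : ℝ | FrogB.step b Z x s = y} = g ⁻¹' {n | h n = y} := by
      ext s
      simp only [Set.mem_ofPred_eq, Set.mem_preimage, hgh]
    rw [this]
    exact hg (MeasurableSet.of_discrete)
  refine ⟨fun h y => hm _ y, fun h s => ?_, fun i v h s => ?_, fun h i hi => ?_,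
    fun i v h j hj => ?_⟩
  · refine ⟨min ⌊s * (Z [] : ℝ)⌋₊ (Z [] - 1), ?_, rfl⟩
    have := min_le_right ⌊s * (Z [] : ℝ)⌋₊ (Z [] - 1)
    omega
  · change FrogB.step b Z (i :: v) s = v ∨ ∃ j < Z (i :: v), FrogB.step b Z (i :: v) s = j :: i :: v
    rw [FrogB.step]
    split_ifs with h1
    · exact Or.inr ⟨_, h1, rfl⟩
    · exact Or.inl rfl
  · change _ ≤ unif {s | FrogB.step b Z [] s = [i]}
    rw [← unif_eq _ (hm []), (FrogB.taskStep b hb' Z fun y => if y = [i] then 1 else 0).1 hZ]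
    have h1 : ∑ k ∈ Finset.range (Z []), (if [k] = [i] then (1 : ℝ≥0∞) else 0) = 1 := by
      rw [Finset.sum_eq_single i]
      · simp
      · intro k _ hk
        simp [hk]
      · intro h2
        exact absurd (Finset.mem_range.2 hi) h2
    rw [h1, mul_one, ENNReal.coe_inv (by positivity)]
    simp
  · change unif {s | FrogB.step b Z (i :: v) s = v} ≤
      b * unif {s | FrogB.step b Z (i :: v) s = j :: i :: v}
    rw [← unif_eq _ (hm (i :: v)), ← unif_eq _ (hm (i :: v)),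
      (FrogB.taskStep b hb' Z fun y => if y = v then 1 else 0).2 i v,
      (FrogB.taskStep b hb' Z fun y => if y = j :: i :: v then 1 else 0).2 i v]
    have h1 : ∑ k ∈ Finset.range (Z (i :: v)),
        (if k :: i :: v = j :: i :: v then (1 : ℝ≥0∞) else 0) = 1 := by
      rw [Finset.sum_eq_single j]
      · simp
      · intro k _ hk
        simp [hk]
      · intro h2
        exact absurd (Finset.mem_range.2 hj) h2
    have h2 : ∑ k ∈ Finset.range (Z (i :: v)),
        (if k :: i :: v = v then (1 : ℝ≥0∞) else 0) = 0 := by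
      refine Finset.sum_eq_zero fun k _ => if_neg fun h => ?_
      have := congrArg List.length h
      simp at this
      omega
    have h3 : ¬ v = j :: i :: v := by
      intro h
      have := congrArg List.length h
      simp at this
      omega
    rw [h1, h2, if_pos rfl, if_neg h3, mul_one, add_zero, mul_zero, zero_add, mul_one,
      ENNReal.ofReal_coe_nnreal, mul_comm]

theorem moment_indep (lam : ℝ≥0) (η : List ℕ → Measure ℕ) [∀ v, IsProbabilityMeasure (η v)]
    (h : ∀ v, ∫⁻ k, (k : ℝ≥0∞) ∂(η v) ≤ lam) : MomentBound lam (Measure.infinitePi η) := by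
  intro G _
  have h0 : ∀ v : List ℕ, Measurable fun n : List ℕ → ℕ => (n v : ℝ≥0∞) := fun x =>
    (measurable_from_top (f := fun k : ℕ => (k : ℝ≥0∞))).comp (measurable_pi_apply x)
  induction G using Finset.induction_on with
  | empty => simp
  | @insert x G hx ih =>
    have h1 : ∀ n : List ℕ → ℕ, ∏ v ∈ insert x G, (n v : ℝ≥0∞) =
        (n x : ℝ≥0∞) * ∏ v ∈ G, (n v : ℝ≥0∞) := fun n => Finset.prod_insert hx
    simp only [h1]
    have h2 := FrogB.lintegral_indep η x (fun k : ℕ => (k : ℝ≥0∞))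
      (fun n : List ℕ → ℕ => ∏ v ∈ G, (n v : ℝ≥0∞)) measurable_from_top
      (Finset.measurable_fun_prod _ fun v _ => h0 v) (fun n k => by
        refine Finset.prod_congr rfl fun v hv => ?_
        have hvx : v ≠ x := fun h => hx (h ▸ hv)
        simp [Function.update, hvx])
    rw [h2, Finset.card_insert_of_notMem hx, pow_succ, mul_comm]
    exact mul_le_mul' (ih (by simp_all)) (h x)

end Pool.Agent.H99.FR
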