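import Pool.Agent.H99.FR.Defs

/-!
# Frog model with general rules of motion: measurability, expected score
-/

set_option autoImplicit false

namespace Pool.Agent.H99.FR

open FrogGW (Env InTree Survive GW unif Rd Conf cnt sh sub lev vert cross Reach TaskSeq)
open MeasureTheory ProbabilityTheory Filter
open scoped ENNReal NNReal Classical

/-- the measurable rules -/
def MeasRule (r : Rule) : Prop := ∀ h y, MeasurableSet {s | r h s = y}

lemma MeasRule.after {r : Rule} (h : MeasRule r) (x : List ℕ) : MeasRule (after r x) :=
  fun l y => h (l ++ [x]) y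

/-- one step is a function of one measurable natural number -/
lemma step_fac {r : Rule} (hr : MeasRule r) (l : List (List ℕ)) :
    ∃ (g : ℝ → ℕ) (h : ℕ → List ℕ), Measurable g ∧ ∀ s, r l s = h (g s) := by
  refine ⟨fun s => Encodable.encode (r l s), fun n => (Encodable.decode n).getD [], ?_,
    fun s => by simp⟩
  refine measurable_to_countable' fun n => ?_
  by_cases h : ∃ y : List ℕ, Encodable.encode y = n
  · obtain ⟨y, rfl⟩ := h
    have : (fun s => Encodable.encode (r l s)) ⁻¹' {Encodable.encode y} = {s | r l s = y} := by
      ext s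
      simp
    rw [this]
    exact hr l y
  · have : (fun s => Encodable.encode (r l s)) ⁻¹' {n} = ∅ := by
      ext s
      simp only [Set.mem_preimage, Set.mem_singleton_iff, Set.mem_empty_iff_false, iff_false]
      exact fun h' => h ⟨_, h'⟩
    rw [this]
    exact MeasurableSet.empty

lemma meas_shift : Measurable (fun u : ℕ → ℝ => fun k => u (k + 1)) :=
  measurable_pi_lambda _ fun k => measurable_pi_apply (k + 1)

lemma meas_hit (N m : ℕ) : ∀ {r : Rule} (_ : MeasRule r) (x y : List ℕ),
    MeasurableSet {u | Hit N m r x u y} := by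
  induction m with
  | zero =>
    intro r hr x y
    by_cases h : x.length < N ∧ x = y
    · have : {u : ℕ → ℝ | Hit N 0 r x u y} = Set.univ := by
        ext u
        simp only [Set.mem_ofPred_eq, Hit, Set.mem_univ, iff_true]
        exact h
      rw [this]; exact MeasurableSet.univ
    · have : {u : ℕ → ℝ | Hit N 0 r x u y} = ∅ := by
        ext u; simp only [Set.mem_ofPred_eq, Hit, h, Set.mem_empty_iff_false]
      rw [this]; exact MeasurableSet.empty
  | succ m ih =>
    intro r hr x y
    obtain ⟨g, h, hg, hgh⟩ := step_fac hr [x]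
    by_cases h1 : x.length < N
    · by_cases h2 : x = y
      · have : {u : ℕ → ℝ | Hit N (m + 1) r x u y} = Set.univ := by
          ext u
          simp only [Set.mem_ofPred_eq, Hit, Set.mem_univ, iff_true]
          exact ⟨h1, Or.inl h2⟩
        rw [this]; exact MeasurableSet.univ
      · have : {u : ℕ → ℝ | Hit N (m + 1) r x u y} = ⋃ n : ℕ, ({u | g (u 0) = n} ∩
            (fun u : ℕ → ℝ => fun k => u (k + 1)) ⁻¹' {u | Hit N m (after r x) (h n) u y}) := by
          ext u
          simp only [Set.mem_ofPred_eq, Hit, Set.mem_iUnion, Set.mem_inter_iff, Set.mem_preimage]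
          constructor
          · rintro ⟨_, h3 | h3⟩
            · exact absurd h3 h2
            · refine ⟨g (u 0), rfl, ?_⟩
              rw [hgh] at h3
              exact h3
          · rintro ⟨n, rfl, h3⟩
            refine ⟨h1, Or.inr ?_⟩
            rw [hgh]
            exact h3
        rw [this]
        refine MeasurableSet.iUnion fun n => MeasurableSet.inter ?_
          (meas_shift (ih (hr.after x) (h n) y))
        exact (hg.comp (measurable_pi_apply 0)) (measurableSet_singleton n)
    · have : {u : ℕ → ℝ | Hit N (m + 1) r x u y} = ∅ := by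
        ext u
        simp only [Set.mem_ofPred_eq, Hit, Set.mem_empty_iff_false, iff_false]
        exact fun h => h1 h.1
      rw [this]; exact MeasurableSet.empty

/-- the integrand after one step -/
noncomputable def GG (N : ℕ) (β : List ℕ → ℝ≥0∞) (m : ℕ) (r : Rule) (x : List ℕ)
    (q : ℝ × (ℕ → ℝ)) : ℝ≥0∞ :=
  (if x = [] then 1 else 0) + cross β x (r [x] q.1) +
      (if (r [x] q.1).length < N then score N β m (after r x) (r [x] q.1) q.2 else 0)

lemma meas_GG (N : ℕ) (β : List ℕ → ℝ≥0∞) (m : ℕ)
    (ih : ∀ (r : Rule), MeasRule r → ∀ x, Measurable fun u => score N β m r x u)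
    (r : Rule) (hr : MeasRule r) (x : List ℕ) : Measurable (GG N β m r x) := by
  obtain ⟨g, h, hg, hgh⟩ := step_fac hr [x]
  have h1 : Measurable (fun q : ℕ × (ℕ → ℝ) => (if x = [] then (1 : ℝ≥0∞) else 0) +
      cross β x (h q.1) +
        (if (h q.1).length < N then score N β m (after r x) (h q.1) q.2 else 0)) := by
    apply measurable_from_prod_countable_right
    intro n
    simp only
    refine Measurable.add measurable_const ?_
    by_cases hn : (h n).length < N
    · simp only [if_pos hn]; exact ih _ (hr.after x) (h n)
    · simp only [if_neg hn]; exact measurable_const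
  have h2 : Measurable (fun q : ℝ × (ℕ → ℝ) => (g q.1, q.2)) :=
    (hg.comp measurable_fst).prodMk measurable_snd
  have h3 := h1.comp h2
  have h4 : GG N β m r x = (fun q : ℕ × (ℕ → ℝ) => (if x = [] then (1 : ℝ≥0∞) else 0) +
      cross β x (h q.1) +
        (if (h q.1).length < N then score N β m (after r x) (h q.1) q.2 else 0)) ∘
      (fun q : ℝ × (ℕ → ℝ) => (g q.1, q.2)) := by
    funext q
    unfold GG
    simp only [Function.comp, hgh]
  rw [h4]
  exact h3

lemma meas_split : Measurable (fun u : ℕ → ℝ => (u 0, fun k => u (k + 1))) :=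
  (measurable_pi_apply 0).prodMk meas_shift

lemma score_succ (N : ℕ) (β : List ℕ → ℝ≥0∞) (m : ℕ) (r : Rule) (x : List ℕ) (u : ℕ → ℝ) :
    score N β (m + 1) r x u = GG N β m r x (u 0, fun k => u (k + 1)) := rfl

lemma meas_score (N : ℕ) (β : List ℕ → ℝ≥0∞) (m : ℕ) :
    ∀ (r : Rule), MeasRule r → ∀ x : List ℕ, Measurable fun u => score N β m r x u := by
  induction m with
  | zero => intro r _ x; exact measurable_const
  | succ m ih =>
    intro r hr x
    exact (meas_GG N β m ih r hr x).comp meas_split

theorem taskWalk (hseq : FrogGW.TaskSeq) (Z : Env) (b δ : ℝ≥0) (N : ℕ) (β U : List ℕ → ℝ≥0∞)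
    (hU : ∀ r : Rule, Adm Z b δ r → ∀ x, x.length < N → (if x = [] then 1 else 0) +
      ∫⁻ s, (cross β x (r [x] s) +
        (if (r [x] s).length < N then U (r [x] s) else 0)) ∂unif ≤ U x) :
    ∀ (m : ℕ) (r : Rule), Adm Z b δ r → ∀ x : List ℕ, x.length < N →
      ∫⁻ u, score N β m r x u ∂(Measure.infinitePi fun _ : ℕ => unif) ≤ U x := by
  intro m
  have hms := fun m => meas_score N β m
  induction m with
  | zero =>
    intro r _ x hx
    simp only [score, lintegral_zero]
    exact bot_le
  | succ m ih =>
    intro r hr x hx
    have hGm := meas_GG N β m (hms m) r hr.meas x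
    have h1 : ∫⁻ u, score N β (m + 1) r x u ∂(Measure.infinitePi fun _ : ℕ => unif) =
        ∫⁻ q, GG N β m r x q ∂(unif.prod (Measure.infinitePi fun _ : ℕ => unif)) := by
      simp only [score_succ]
      exact (hseq ℝ unif).lintegral_comp hGm
    rw [h1, lintegral_prod _ hGm.aemeasurable]
    refine le_trans ?_ (hU r hr x hx)
    have h2 : ∀ s : ℝ, ∫⁻ v, GG N β m r x (s, v) ∂(Measure.infinitePi fun _ : ℕ => unif) ≤
        (if x = [] then 1 else 0) + (cross β x (r [x] s) +
        (if (r [x] s).length < N then U (r [x] s) else 0)) := by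
      intro s
      unfold GG
      simp only
      rw [lintegral_add_left measurable_const, lintegral_const, measure_univ, mul_one, add_assoc]
      refine add_le_add le_rfl (add_le_add le_rfl ?_)
      by_cases h : (r [x] s).length < N
      · simp only [if_pos h]
        exact ih _ (hr.after x) _ h
      · simp only [if_neg h, lintegral_zero]
        exact le_rfl
    refine (lintegral_mono h2).trans ?_
    rw [lintegral_add_left measurable_const, lintegral_const, measure_univ, mul_one]

end Pool.Agent.H99.FR
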