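import Pool.Agent.H99.FR.Defs
import Pool.Graph.R_seed8.Y986.FB.Pot

/-!
# Frog model with general rules of motion: the potential is superharmonic
-/

set_option autoImplicit false

namespace Pool.Agent.H99.FR

open FrogGW (Env InTree Survive GW unif Rd Conf cnt sh sub lev vert cross Reach ww wn an na)
open MeasureTheory ProbabilityTheory Filter
open scoped ENNReal NNReal Classical

theorem law_fin (f : ℝ → List ℕ) (hf : ∀ y, MeasurableSet {s | f s = y}) (T : Finset (List ℕ))
    (hT : ∀ s, f s ∈ T) (F : List ℕ → ℝ≥0∞) :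
    ∫⁻ s, F (f s) ∂unif = ∑ y ∈ T, unif {s | f s = y} * F y := by
  have h1 : ∀ s, F (f s) = ∑ y ∈ T, {s | f s = y}.indicator (fun _ => F y) s := by
    intro s
    rw [Finset.sum_eq_single (f s)]
    · simp
    · intro y _ hy
      rw [Set.indicator_of_notMem]
      exact fun h => hy h.symm
    · intro h
      exact absurd (hT s) h
  simp only [h1]
  rw [lintegral_finsetSum _ fun y _ => measurable_const.indicator (hf y)]
  refine Finset.sum_congr rfl fun y _ => ?_
  rw [lintegral_indicator_const (hf y), mul_comm]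

variable {Z : Env} {b δ : ℝ≥0} {r : Rule}

theorem law_root (hr : Adm Z b δ r) (F : List ℕ → ℝ≥0∞) :
    ∫⁻ s, F (r [[]] s) ∂unif =
      ∑ i ∈ Finset.range (Z []), unif {s | r [[]] s = [i]} * F [i] := by
  rw [law_fin (fun s => r [[]] s) (fun y => hr.meas _ y)
    ((Finset.range (Z [])).image fun i => [i]) (fun s => ?_) F]
  · rw [Finset.sum_image]
    intro i _ j _ h
    simpa using h
  · obtain ⟨i, hi, he⟩ := hr.root [] s
    rw [he]
    exact Finset.mem_image_of_mem _ (Finset.mem_range.2 hi)

theorem law_cons (hr : Adm Z b δ r) (i : ℕ) (v : List ℕ) (F : List ℕ → ℝ≥0∞) :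
    ∫⁻ s, F (r [i :: v] s) ∂unif = unif {s | r [i :: v] s = v} * F v +
      ∑ j ∈ Finset.range (Z (i :: v)), unif {s | r [i :: v] s = j :: i :: v} *
        F (j :: i :: v) := by
  rw [law_fin (fun s => r [i :: v] s) (fun y => hr.meas _ y)
    (insert v ((Finset.range (Z (i :: v))).image fun j => j :: i :: v)) (fun s => ?_) F]
  · rw [Finset.sum_insert, Finset.sum_image]
    · intro j _ k _ h
      simpa using h
    · intro h
      obtain ⟨j, _, hj⟩ := Finset.mem_image.1 h
      have := congrArg List.length hj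
      simp at this
      omega
  · rcases hr.nn i v [] s with h1 | ⟨j, hj, he⟩
    · rw [h1]; exact Finset.mem_insert_self _ _
    · rw [he]
      exact Finset.mem_insert_of_mem (Finset.mem_image_of_mem _ (Finset.mem_range.2 hj))

theorem unif_ofReal (A : Set ℝ) : unif A = ENNReal.ofReal (unif A).toReal :=
  (ENNReal.ofReal_toReal (measure_ne_top _ _)).symm

section

variable {lam γ : ℝ} (N : ℕ)

/-- the value of the crossing weight and of the potential at a child -/
theorem child_value (hb : 0 < b) (hl : 0 < lam) (hγ : 0 < γ) (hγ1 : γ ≤ 1) (K : ℝ) (hK : 0 ≤ K)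
    (u : List ℕ) (hu : u.length < N) (i : ℕ) :
    cross (fun t => ENNReal.ofReal (K * FrogB.bet b lam γ N Z t)) u (i :: u) +
      (if (i :: u).length < N then ENNReal.ofReal (K * FrogB.pot b lam γ N Z (i :: u)) else 0) =
    ENNReal.ofReal (K * ((1 - b * (FrogB.TA b lam γ (N - 1 - u.length) (sub (i :: u) Z)).2) *
      FrogB.pot b lam γ N Z u)) := by
  have hb' : (0 : ℝ) < b := hb
  have hbt := FrogB.bet_nonneg hb' hl hγ hγ1 N Z (i :: u)
  have hp := FrogB.pot_nonneg hb' hl hγ hγ1 N Z (i :: u)
  rw [← FrogB.key hb' hl hγ hγ1 N Z u hu i]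
  unfold cross
  rw [if_pos (by simp), mul_add]
  split_ifs
  · rw [ENNReal.ofReal_add (mul_nonneg hK hbt) (mul_nonneg hK hp)]
  · rw [mul_zero, add_zero, add_zero]

end

theorem taskPot (lam γ : ℝ) (hb : 0 < b) (hδ : 0 < δ) (hl : 0 < lam)
    (hγ : 0 < γ) (hγ1 : γ ≤ 1) (N : ℕ) (hTH : 0 < FrogB.TH b lam γ N Z []) (hr : Adm Z b δ r)
    (x : List ℕ) (hx : x.length < N) :
    (if x = [] then 1 else 0) +
      ∫⁻ s, (cross (fun t => ENNReal.ofReal ((δ : ℝ)⁻¹ * FrogB.bet b lam γ N Z t)) x (r [x] s) +
        (if (r [x] s).length < N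
          then ENNReal.ofReal ((δ : ℝ)⁻¹ * FrogB.pot b lam γ N Z (r [x] s)) else 0))
        ∂unif ≤ ENNReal.ofReal ((δ : ℝ)⁻¹ * FrogB.pot b lam γ N Z x) := by
  have hb' : (0 : ℝ) < b := hb
  have hδ' : (0 : ℝ) < δ := hδ
  have hK : (0 : ℝ) < (δ : ℝ)⁻¹ := by positivity
  set K : ℝ := (δ : ℝ)⁻¹ with hKdef
  have hτ := fun i => FrogB.taskTA (b : ℝ) lam γ hb' hl hγ hγ1 (N - 1 - x.length)
    (sub (i :: x) Z)
  have hp0 := FrogB.pot_nonneg hb' hl hγ hγ1 N Z x
  have hone : ∀ i, 0 ≤ 1 - b * (FrogB.TA b lam γ (N - 1 - x.length) (sub (i :: x) Z)).2 := by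
    intro i
    have := mul_le_mul_of_nonneg_left (hτ i).2.2 hb'.le
    rw [mul_inv_cancel₀ hb'.ne'] at this
    linarith
  have hTHx : FrogB.TH b lam γ N Z x = ∑ i ∈ Finset.range (Z x),
      (FrogB.TA b lam γ (N - 1 - x.length) (sub (i :: x) Z)).2 := rfl
  set τ : ℕ → ℝ := fun i => (FrogB.TA b lam γ (N - 1 - x.length) (sub (i :: x) Z)).2 with hτdef
  have hcv := fun i => child_value (Z := Z) N hb hl hγ hγ1 K hK.le x hx i
  cases x with
  | nil =>
    have hZ : 1 ≤ Z [] := by
      by_contra h
      have h0 : Z [] = 0 := by omega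
      unfold FrogB.TH at hTH
      rw [h0] at hTH
      simp at hTH
    have hZ0 : (1 : ℝ) ≤ Z [] := by exact_mod_cast hZ
    rw [law_root hr (fun y => cross (fun t => ENNReal.ofReal (K * FrogB.bet b lam γ N Z t)) [] y +
      (if y.length < N then ENNReal.ofReal (K * FrogB.pot b lam γ N Z y) else 0)), if_pos rfl]
    simp only [hcv]
    have hsum1 : ∑ i ∈ Finset.range (Z []), (unif {s | r [[]] s = [i]}).toReal = 1 := by
      have h1 := law_root hr (fun _ => 1)
      simp only [lintegral_const, measure_univ, mul_one] at h1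
      rw [← ENNReal.toReal_sum fun _ _ => measure_ne_top _ _, ← h1]
      simp
    have h2 : ∀ i ∈ Finset.range (Z []), unif {s | r [[]] s = [i]} *
        ENNReal.ofReal (K * ((1 - b * τ i) * FrogB.pot b lam γ N Z [])) =
        ENNReal.ofReal ((unif {s | r [[]] s = [i]}).toReal *
          (K * ((1 - b * τ i) * FrogB.pot b lam γ N Z []))) := by
      intro i _
      rw [ENNReal.ofReal_mul ENNReal.toReal_nonneg, ← unif_ofReal]
    rw [Finset.sum_congr rfl h2, ← ENNReal.ofReal_sum_of_nonneg, ← ENNReal.ofReal_one,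
      ← ENNReal.ofReal_add zero_le_one]
    · refine ENNReal.ofReal_le_ofReal ?_
      have h3 : ∑ i ∈ Finset.range (Z []), (unif {s | r [[]] s = [i]}).toReal *
          (K * ((1 - b * τ i) * FrogB.pot b lam γ N Z [])) =
          K * FrogB.pot b lam γ N Z [] * (1 - b * ∑ i ∈ Finset.range (Z []),
            (unif {s | r [[]] s = [i]}).toReal * τ i) := by
        have h3' : ∑ i ∈ Finset.range (Z []), (unif {s | r [[]] s = [i]}).toReal *
            (K * ((1 - b * τ i) * FrogB.pot b lam γ N Z [])) =
            K * FrogB.pot b lam γ N Z [] * (∑ i ∈ Finset.range (Z []),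
              (unif {s | r [[]] s = [i]}).toReal - b * ∑ i ∈ Finset.range (Z []),
              (unif {s | r [[]] s = [i]}).toReal * τ i) := by
          rw [Finset.mul_sum, ← Finset.sum_sub_distrib, Finset.mul_sum]
          exact Finset.sum_congr rfl fun i _ => by ring
        rw [h3', hsum1]
      have h4 : δ * FrogB.TH b lam γ N Z [] ≤ ∑ i ∈ Finset.range (Z []),
          (unif {s | r [[]] s = [i]}).toReal * τ i := by
        rw [hTHx, Finset.mul_sum]
        refine Finset.sum_le_sum fun i hi => mul_le_mul_of_nonneg_right ?_ (hτ i).2.1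
        have := hr.rootProb [] i (Finset.mem_range.1 hi)
        have h5 := ENNReal.toReal_mono (measure_ne_top _ _) this
        simpa using h5
      rw [h3]
      have h6 : K * FrogB.pot b lam γ N Z [] * (b * (δ * FrogB.TH b lam γ N Z [])) = Z [] := by
        rw [FrogB.pot, hKdef]
        have := hTH.ne'
        have := hb'.ne'
        have := hδ'.ne'
        field_simp
      have h7 : 0 ≤ K * FrogB.pot b lam γ N Z [] := mul_nonneg hK.le hp0
      have h8 := mul_le_mul_of_nonneg_left (mul_le_mul_of_nonneg_left h4 hb'.le) h7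
      rw [h6] at h8
      nlinarith
    · exact Finset.sum_nonneg fun i _ => mul_nonneg ENNReal.toReal_nonneg
        (mul_nonneg hK.le (mul_nonneg (hone i) hp0))
    · exact fun i _ => mul_nonneg ENNReal.toReal_nonneg
        (mul_nonneg hK.le (mul_nonneg (hone i) hp0))
  | cons i v =>
    rw [law_cons hr i v (fun y => cross (fun t => ENNReal.ofReal (K * FrogB.bet b lam γ N Z t))
      (i :: v) y + (if y.length < N then ENNReal.ofReal (K * FrogB.pot b lam γ N Z y) else 0)),
      if_neg (by simp), zero_add]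
    simp only [hcv]
    have h3 : ¬ (i :: v).length < v.length := by simp
    have h4 : v.length < N := by simp at hx; omega
    have hpv := FrogB.pot_nonneg hb' hl hγ hγ1 N Z v
    have hcr : cross (fun t => ENNReal.ofReal (K * FrogB.bet b lam γ N Z t)) (i :: v) v = 0 := by
      unfold cross
      rw [if_neg h3]
    rw [hcr, if_pos h4, zero_add]
    have hsum1 : (unif {s | r [i :: v] s = v}).toReal + ∑ j ∈ Finset.range (Z (i :: v)),
        (unif {s | r [i :: v] s = j :: i :: v}).toReal = 1 := by
      have h1 := law_cons hr i v (fun _ => 1)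
      simp only [lintegral_const, measure_univ, mul_one] at h1
      rw [← ENNReal.toReal_sum fun _ _ => measure_ne_top _ _,
        ← ENNReal.toReal_add (measure_ne_top _ _)
          (ENNReal.sum_ne_top.2 fun _ _ => measure_ne_top _ _), ← h1]
      simp
    have h2 : ∀ j ∈ Finset.range (Z (i :: v)), unif {s | r [i :: v] s = j :: i :: v} *
        ENNReal.ofReal (K * ((1 - b * τ j) * FrogB.pot b lam γ N Z (i :: v))) =
        ENNReal.ofReal ((unif {s | r [i :: v] s = j :: i :: v}).toReal *
          (K * ((1 - b * τ j) * FrogB.pot b lam γ N Z (i :: v)))) := by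
      intro j _
      rw [ENNReal.ofReal_mul ENNReal.toReal_nonneg, ← unif_ofReal]
    have h5 : unif {s | r [i :: v] s = v} * ENNReal.ofReal (K * FrogB.pot b lam γ N Z v) =
        ENNReal.ofReal ((unif {s | r [i :: v] s = v}).toReal *
          (K * FrogB.pot b lam γ N Z v)) := by
      rw [ENNReal.ofReal_mul ENNReal.toReal_nonneg, ← unif_ofReal]
    rw [h5, Finset.sum_congr rfl h2, ← ENNReal.ofReal_sum_of_nonneg, ← ENNReal.ofReal_add]
    · refine ENNReal.ofReal_le_ofReal ?_
      set p := (unif {s | r [i :: v] s = v}).toReal with hp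
      set q : ℕ → ℝ := fun j => (unif {s | r [i :: v] s = j :: i :: v}).toReal with hq
      have hTH0 := FrogB.TH_nonneg hb' hl hγ hγ1 N Z (i :: v)
      have h7 : FrogB.pot b lam γ N Z v =
          (1 + FrogB.TH b lam γ N Z (i :: v)) * FrogB.pot b lam γ N Z (i :: v) := by
        have h6 : FrogB.pot b lam γ N Z (i :: v) =
          FrogB.pot b lam γ N Z v / (1 + FrogB.TH b lam γ N Z (i :: v)) := by
          rw [FrogB.pot]
        rw [h6]
        field_simp
      have hpq : ∀ j ∈ Finset.range (Z (i :: v)), p * τ j ≤ b * (q j * τ j) := by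
        intro j hj
        have h8 := ENNReal.toReal_mono (ENNReal.mul_ne_top ENNReal.coe_ne_top
          (measure_ne_top _ _)) (hr.bias i v [] j (Finset.mem_range.1 hj))
        rw [ENNReal.toReal_mul, ENNReal.coe_toReal] at h8
        rw [← mul_assoc]
        exact mul_le_mul_of_nonneg_right h8 (hτ j).2.1
      have hpq' := Finset.sum_le_sum hpq
      rw [← Finset.mul_sum, ← Finset.mul_sum] at hpq'
      have h9 : p * (K * FrogB.pot b lam γ N Z v) + ∑ j ∈ Finset.range (Z (i :: v)),
          q j * (K * ((1 - b * τ j) * FrogB.pot b lam γ N Z (i :: v))) =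
          K * FrogB.pot b lam γ N Z (i :: v) * ((p + ∑ j ∈ Finset.range (Z (i :: v)), q j) +
            (p * ∑ j ∈ Finset.range (Z (i :: v)), τ j -
              b * ∑ j ∈ Finset.range (Z (i :: v)), q j * τ j)) := by
        have h10 : ∑ j ∈ Finset.range (Z (i :: v)),
            q j * (K * ((1 - b * τ j) * FrogB.pot b lam γ N Z (i :: v))) =
            K * FrogB.pot b lam γ N Z (i :: v) * (∑ j ∈ Finset.range (Z (i :: v)), q j -
              b * ∑ j ∈ Finset.range (Z (i :: v)), q j * τ j) := by
          rw [Finset.mul_sum, ← Finset.sum_sub_distrib, Finset.mul_sum]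
          exact Finset.sum_congr rfl fun j _ => by ring
        rw [h10, h7, hTHx]
        ring
      rw [h9, hsum1]
      have h11 : 0 ≤ K * FrogB.pot b lam γ N Z (i :: v) := mul_nonneg hK.le hp0
      nlinarith
    · exact mul_nonneg ENNReal.toReal_nonneg (mul_nonneg hK.le hpv)
    · exact Finset.sum_nonneg fun j _ => mul_nonneg ENNReal.toReal_nonneg
        (mul_nonneg hK.le (mul_nonneg (hone j) hp0))
    · exact fun j _ => mul_nonneg ENNReal.toReal_nonneg
        (mul_nonneg hK.le (mul_nonneg (hone j) hp0))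

end Pool.Agent.H99.FR
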