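import Pool.Agent.H99.FR.Score
import Pool.Agent.H99.FR.Meas
import Pool.Agent.H99.FR.Pot
import Pool.Agent.H99.FR.Dom
import Pool.Agent.H99.FR.Chain
import Pool.Graph.R_seed8.Y986.FB.Quench

/-!
# Frog model with general rules of motion and correlated numbers of particles: quenched bound
-/

set_option autoImplicit false

namespace Pool.Agent.H99.FR

open FrogGW (Env InTree Survive GW unif Rd Conf cnt sh sub lev vert cross Reach ww wn an na)
open MeasureTheory ProbabilityTheory Filter
open scoped ENNReal NNReal Classical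
open FrogB (tv trig pot bet TH AA TA blockRoot cf)

/-- The joint law of the numbers of sleeping particles has product moments (over distinct vertices)
at most the powers of `lam`. -/
def MomentBound (lam : ℝ≥0) (μ : Measure (List ℕ → ℕ)) : Prop :=
  ∀ G : Finset (List ℕ), [] ∉ G → ∫⁻ n, ∏ v ∈ G, (n v : ℝ≥0∞) ∂μ ≤ (lam : ℝ≥0∞) ^ G.card

/-- the number of particles at a vertex -/
def nm (x : List ℕ) (k : ℕ) : ℕ := if x = [] then 1 else k

lemma cnt_eq (x : List ℕ) (r : Rd) : cnt x r = nm x r.1 := by
  cases x with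
  | nil => simp [cnt, nm]
  | cons i v => simp [cnt, nm]

lemma moment' {lam : ℝ≥0} {μ : Measure (List ℕ → ℕ)} (h : MomentBound lam μ)
    (G : Finset (List ℕ)) :
    ∫⁻ n, ∏ v ∈ G, (nm v (n v) : ℝ≥0∞) ∂μ ≤ ∏ v ∈ G, cf lam v := by
  have h1 : ∀ n : List ℕ → ℕ, ∏ v ∈ G, (nm v (n v) : ℝ≥0∞) =
      ∏ v ∈ G.filter (fun v => v ≠ []), (n v : ℝ≥0∞) := by
    intro n
    rw [Finset.prod_filter]
    refine Finset.prod_congr rfl fun v _ => ?_
    unfold nm
    by_cases hv : v = []
    · simp [hv]
    · simp [hv]
  have h2 : ∏ v ∈ G, cf lam v = (lam : ℝ≥0∞) ^ (G.filter (fun v => v ≠ [])).card := by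
    rw [← Finset.prod_const, Finset.prod_filter]
    refine Finset.prod_congr rfl fun v _ => ?_
    unfold cf
    by_cases hv : v = []
    · simp [hv]
    · simp [hv]
  simp only [h1]
  rw [h2]
  exact h _ (by simp)

theorem quench (hseq : FrogGW.TaskSeq) (b δ : ℝ≥0) (hb : 0 < b) (hδ : 0 < δ) (lam : ℝ≥0) (γ : ℝ)
    (hl : 0 < lam) (hg : 0 < γ) (hg1 : γ ≤ 1) (Z : Env) (N : ℕ) (hN : 1 ≤ N)
    (hT : 0 < TH b lam γ N Z []) (ρ : List ℕ → Rule) (hρ : ∀ v, Adm Z b δ (ρ v))
    (μ : Measure (List ℕ → ℕ)) [IsProbabilityMeasure μ] (hμ : MomentBound lam μ) :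
    ∫⁻ ω, VN ρ Z N ω ∂(FM μ) ≤ ENNReal.ofReal ((δ : ℝ)⁻¹ *
      ((Z [] : ℝ) / (b * TH b lam γ N Z []) * (1 + (AA b lam γ N Z [] - lam)))) := by
  have hb' : (0 : ℝ) < b := hb
  have hδ' : (0 : ℝ) < δ := hδ
  have hl' : (0 : ℝ) < (lam : ℝ) := hl
  set K : ℝ := (δ : ℝ)⁻¹ with hKdef
  have hK : 0 < K := by rw [hKdef]; positivity
  have hpot := FrogB.pot_nonneg hb' hl' hg hg1 N Z
  set S := vert Z N with hSdef
  set P := Measure.infinitePi fun _ : ℕ => unif with hPdef
  let h : List ℕ → List ℕ → ℝ≥0∞ := fun x t => ∫⁻ u, (if Hit N N (ρ x) x u t then 1 else 0) ∂P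
  let q : List ℕ → (ℕ → ℝ) → ℝ≥0∞ := fun x u => vis N (N + 1) (ρ x) x u
  let V : List ℕ → ℝ≥0∞ := fun x => ∫⁻ u, q x u ∂P
  let a : List ℕ → List ℕ → (ℕ → ℝ) → ℝ≥0∞ := fun x y u =>
    if tv b lam γ N Z y <:+ x then 0 else
      if Hit N N (ρ x) x u (tv b lam γ N Z y) then 1 else 0
  let Ub : List ℕ → ℝ≥0∞ := fun x => ENNReal.ofReal (K * pot b lam γ N Z x)
  have hHm : ∀ x t, Measurable fun u => (if Hit N N (ρ x) x u t then (1 : ℝ≥0∞) else 0) :=
    fun x t => Measurable.ite (meas_hit N N (hρ x).meas x t) measurable_const measurable_const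
  have hqm : ∀ x, Measurable (q x) :=
    fun x => meas_score N (fun _ => 0) (N + 1) (ρ x) (hρ x).meas x
  have ham : ∀ x y, Measurable (a x y) := by
    intro x y
    by_cases hs : tv b lam γ N Z y <:+ x
    · simp only [a, if_pos hs]
      exact measurable_const
    · simp only [a, if_neg hs]
      exact hHm x _
  have hE : ∀ x y (r : Rd), edge ρ b lam γ N Z x y r → 1 ≤ sm nm (a x y) x r := by
    intro x y r hr
    obtain ⟨hs, j, hj, hj'⟩ := hr
    rw [cnt_eq] at hj
    unfold sm
    refine le_trans ?_ (Finset.single_le_sum (f := fun j => a x y (r.2 j))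
      (s := Finset.range (nm x r.1)) (fun _ _ => zero_le) (Finset.mem_range.2 hj))
    simp only [a, if_neg hs, if_pos hj']
    exact le_rfl
  have hkey : ∀ x ∈ S, ∫⁻ u, q x u ∂P +
      ∑ y ∈ S, (∫⁻ u, a x y u ∂P) * (cf lam y * Ub y) ≤ Ub x := by
    intro x hx
    have hxN : x.length < N := (FrogB.mem_vert N Z hx).2
    set β : List ℕ → ℝ≥0∞ := fun t => ENNReal.ofReal (K * bet b lam γ N Z t) with hβ
    -- the sum over edges
    have hsum : ∑ y ∈ S, (∫⁻ u, a x y u ∂P) * (cf lam y * Ub y) ≤
        ∑ t ∈ (S.image (tv b lam γ N Z)).filter (fun t => ¬ (t <:+ x)), h x t * β t := by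
      calc ∑ y ∈ S, (∫⁻ u, a x y u ∂P) * (cf lam y * Ub y)
          = ∑ y ∈ S, (if tv b lam γ N Z y <:+ x then 0 else
              h x (tv b lam γ N Z y) * (lam * ENNReal.ofReal (K * pot b lam γ N Z y))) := by
            refine Finset.sum_congr rfl fun y _ => ?_
            by_cases hs : tv b lam γ N Z y <:+ x
            · simp [a, hs]
            · have hy : y ≠ [] := by
                rintro rfl
                exact hs (by rw [tv]; exact List.nil_suffix)
              simp only [a, if_neg hs, cf, if_neg hy, h, Ub]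
        _ = ∑ y ∈ S.filter (fun y => ¬ (tv b lam γ N Z y <:+ x)),
              h x (tv b lam γ N Z y) * (lam * ENNReal.ofReal (K * pot b lam γ N Z y)) := by
            rw [Finset.sum_filter]
            refine Finset.sum_congr rfl fun y _ => ?_
            split_ifs <;> first | rfl | contradiction
        _ = ∑ t ∈ (S.image (tv b lam γ N Z)).filter (fun t => ¬ (t <:+ x)),
              ∑ y ∈ (S.filter (fun y => ¬ (tv b lam γ N Z y <:+ x))).filter
                (fun y => tv b lam γ N Z y = t),
              h x (tv b lam γ N Z y) * (lam * ENNReal.ofReal (K * pot b lam γ N Z y)) := by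
            refine (Finset.sum_fiberwise_of_maps_to (fun y hy => ?_) _).symm
            rw [Finset.mem_filter] at hy ⊢
            exact ⟨Finset.mem_image_of_mem _ hy.1, hy.2⟩
        _ ≤ ∑ t ∈ (S.image (tv b lam γ N Z)).filter (fun t => ¬ (t <:+ x)), h x t * β t := by
            refine Finset.sum_le_sum fun t ht => ?_
            rw [Finset.mem_filter] at ht
            obtain ⟨ht1, ht2⟩ := ht
            have htr : trig b lam γ N Z t := by
              rw [Finset.mem_image] at ht1
              obtain ⟨y, _, rfl⟩ := ht1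
              rcases FrogB.tv_cases b lam γ N Z y with h0 | h0
              · exact absurd (by rw [h0]; exact List.nil_suffix) ht2
              · exact h0
            calc ∑ y ∈ (S.filter (fun y => ¬ (tv b lam γ N Z y <:+ x))).filter
                  (fun y => tv b lam γ N Z y = t),
                  h x (tv b lam γ N Z y) * (lam * ENNReal.ofReal (K * pot b lam γ N Z y))
                = ∑ y ∈ (S.filter (fun y => ¬ (tv b lam γ N Z y <:+ x))).filter
                  (fun y => tv b lam γ N Z y = t),
                  h x t * (lam * ENNReal.ofReal (K * pot b lam γ N Z y)) := by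
                  refine Finset.sum_congr rfl fun y hy => ?_
                  rw [(Finset.mem_filter.1 hy).2]
              _ = h x t * ∑ y ∈ (S.filter
                  (fun y => ¬ (tv b lam γ N Z y <:+ x))).filter (fun y => tv b lam γ N Z y = t),
                  (lam * ENNReal.ofReal (K * pot b lam γ N Z y)) := by rw [Finset.mul_sum]
              _ ≤ h x t * ∑ y ∈ S.filter (fun y => tv b lam γ N Z y = t),
                  (lam * ENNReal.ofReal (K * pot b lam γ N Z y)) := by
                  refine mul_le_mul_right ?_ _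
                  refine Finset.sum_le_sum_of_subset ?_
                  intro y hy
                  rw [Finset.mem_filter, Finset.mem_filter] at hy
                  exact Finset.mem_filter.2 ⟨hy.1.1, hy.2⟩
              _ ≤ h x t * β t := by
                  refine mul_le_mul_right ?_ _
                  have h1 := (FrogB.taskBlk b lam γ hb' hl' hg hg1 Z N).1 t htr
                  have h2 : ∑ y ∈ S.filter (fun y => tv b lam γ N Z y = t),
                      ((lam : ℝ≥0∞) * ENNReal.ofReal (K * pot b lam γ N Z y)) =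
                      ENNReal.ofReal (K * ∑ y ∈ S.filter (fun y => tv b lam γ N Z y = t),
                        (lam : ℝ) * pot b lam γ N Z y) := by
                    rw [Finset.mul_sum, ENNReal.ofReal_sum_of_nonneg]
                    · refine Finset.sum_congr rfl fun y _ => ?_
                      rw [← ENNReal.ofReal_coe_nnreal, ← ENNReal.ofReal_mul hl'.le]
                      congr 1
                      ring
                    · intro y _
                      exact mul_nonneg hK.le (mul_nonneg hl'.le (hpot y))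
                  rw [h2]
                  exact ENNReal.ofReal_le_ofReal (mul_le_mul_of_nonneg_left h1 hK.le)
    have hscore : V x + ∑ t ∈ (S.image (tv b lam γ N Z)).filter (fun t => ¬ (t <:+ x)),
        h x t * β t ≤ ENNReal.ofReal (K * pot b lam γ N Z x) := by
      have h1 := taskWalk hseq Z b δ N β (fun y => ENNReal.ofReal (K * pot b lam γ N Z y))
        (fun r hr => taskPot lam γ hb hδ hl' hg hg1 N hT hr) (N + 1) (ρ x) (hρ x) x hxN
      refine le_trans ?_ h1
      have h2 : V x + ∑ t ∈ (S.image (tv b lam γ N Z)).filter (fun t => ¬ (t <:+ x)),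
          h x t * β t = ∫⁻ u, (vis N (N + 1) (ρ x) x u +
            ∑ t ∈ (S.image (tv b lam γ N Z)).filter (fun t => ¬ (t <:+ x)),
              (if Hit N N (ρ x) x u t then β t else 0)) ∂P := by
        rw [lintegral_add_left (hqm x)]
        congr 1
        rw [lintegral_finsetSum']
        · refine Finset.sum_congr rfl fun t _ => ?_
          have : ∀ u, (if Hit N N (ρ x) x u t then β t else 0) =
              (if Hit N N (ρ x) x u t then (1 : ℝ≥0∞) else 0) * β t := by
            intro u; split_ifs <;> simp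
          simp_rw [this]
          rw [lintegral_mul_const _ (hHm x t)]
        · intro t _
          exact (Measurable.ite (meas_hit N N (hρ x).meas x t) measurable_const
            measurable_const).aemeasurable
      rw [h2]
      exact lintegral_mono fun u => taskScore Z b δ N β _ N (ρ x) x u (hρ x) hxN
    exact (add_le_add le_rfl hsum).trans hscore
  -- chain bound
  have hBS : blockRoot b lam γ N Z ⊆ S := Finset.filter_subset _ _
  have h1 := chain (ι := List ℕ) (U := ℕ → ℝ) P μ nm (blockRoot b lam γ N Z) S hBS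
    (edge ρ b lam γ N Z) a q ham hqm hE (cf lam) Ub (moment' hμ) hkey
  have h2 : ∫⁻ ω, VN ρ Z N ω ∂(FM μ) ≤ ∫⁻ ω, ∑ z ∈ S,
      (if Reach (blockRoot b lam γ N Z) S (edge ρ b lam γ N Z) ω z then sm nm (q z) z (ω z)
        else 0) ∂(FM μ) := by
    refine lintegral_mono fun ω => ?_
    rw [VN]
    refine Finset.sum_le_sum fun z _ => ?_
    by_cases hz : ActiveN ρ N ω z
    · rw [if_pos hz, if_pos (Dom.dom ρ b δ b lam γ Z hρ N ω z hN hz).2, sm, cnt_eq]
    · rw [if_neg hz]
      exact zero_le
  refine h2.trans (le_trans h1 ?_)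
  have hroot : ([] : List ℕ) ∈ blockRoot b lam γ N Z := by
    rw [blockRoot, Finset.mem_filter]
    refine ⟨?_, rfl⟩
    rw [vert, Finset.mem_biUnion]
    exact ⟨0, Finset.mem_range.2 hN, by simp [lev]⟩
  have hsplit : ∑ x ∈ blockRoot b lam γ N Z, cf lam x * Ub x = cf lam [] * Ub [] +
      ∑ x ∈ (blockRoot b lam γ N Z).filter (fun y => y ≠ []), cf lam x * Ub x := by
    rw [← Finset.sum_filter_add_sum_filter_not _ (fun y : List ℕ => y = [])]
    congr 1
    have : (blockRoot b lam γ N Z).filter (fun y => y = []) = {[]} := by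
      ext y
      rw [Finset.mem_filter, Finset.mem_singleton]
      exact ⟨fun h => h.2, fun h => ⟨h ▸ hroot, h⟩⟩
    rw [this, Finset.sum_singleton]
  rw [hsplit]
  have h3 : ∑ x ∈ (blockRoot b lam γ N Z).filter (fun y => y ≠ []), cf lam x * Ub x =
      ENNReal.ofReal (K * ∑ y ∈ (blockRoot b lam γ N Z).filter (fun y => y ≠ []),
        (lam : ℝ) * pot b lam γ N Z y) := by
    rw [Finset.mul_sum, ENNReal.ofReal_sum_of_nonneg]
    · refine Finset.sum_congr rfl fun y hy => ?_
      simp only [Ub, cf]
      rw [if_neg (Finset.mem_filter.1 hy).2, ← ENNReal.ofReal_coe_nnreal,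
        ← ENNReal.ofReal_mul hl'.le]
      congr 1
      ring
    · intro y _
      exact mul_nonneg hK.le (mul_nonneg hl'.le (hpot y))
  have h4 := (FrogB.taskBlk b lam γ hb' hl' hg hg1 Z N).2
  have hp0 := hpot []
  have hA0 : 0 ≤ AA b lam γ N Z [] - lam := by
    rw [AA, add_sub_cancel_left]
    exact Finset.sum_nonneg fun i _ => (FrogB.taskTA b lam γ hb' hl' hg hg1 _ _).1
  rw [h3]
  calc cf lam [] * Ub [] + ENNReal.ofReal (K * ∑ y ∈ (blockRoot b lam γ N Z).filter
        (fun y => y ≠ []), (lam : ℝ) * pot b lam γ N Z y)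
      ≤ ENNReal.ofReal (K * pot b lam γ N Z []) +
        ENNReal.ofReal (K * ((AA b lam γ N Z [] - lam) * pot b lam γ N Z [])) := by
        refine add_le_add ?_ (ENNReal.ofReal_le_ofReal (mul_le_mul_of_nonneg_left h4 hK.le))
        simp [Ub, cf]
    _ = ENNReal.ofReal (K * ((Z [] : ℝ) / (b * TH b lam γ N Z []) *
          (1 + (AA b lam γ N Z [] - lam)))) := by
        rw [← ENNReal.ofReal_add (mul_nonneg hK.le hp0)
          (mul_nonneg hK.le (mul_nonneg hA0 hp0))]
        congr 1
        rw [show pot b lam γ N Z [] = (Z [] : ℝ) / (b * TH b lam γ N Z []) from rfl]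
        ring

end Pool.Agent.H99.FR
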