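import Pool.Agent.H99.FR.Defs

/-!
# Frog model with general rules of motion: pathwise comparison of visits with the score
-/

set_option autoImplicit false

namespace Pool.Agent.H99.FR

open FrogGW (Env InTree Survive GW unif Rd Conf cnt sh sub lev vert cross Reach)
open MeasureTheory ProbabilityTheory Filter
open scoped ENNReal NNReal Classical

theorem hit_length (N m : ℕ) (r : Rule) (x y : List ℕ) (u : ℕ → ℝ)
    (h : Hit N m r x u y) : x.length < N := by
  cases m with
  | zero => exact h.1
  | succ m => exact h.1

/-- Number of root visits plus the weights of the visited triggers that are not ancestors of the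
starting point. -/
theorem taskScore (Z : Env) (b δ : ℝ≥0) (N : ℕ) (β : List ℕ → ℝ≥0∞) (S : Finset (List ℕ)) (m : ℕ) :
    ∀ (r : Rule) (x : List ℕ) (u : ℕ → ℝ), Adm Z b δ r → x.length < N →
    vis N (m + 1) r x u +
      ∑ t ∈ S.filter (fun t => ¬ (t <:+ x)), (if Hit N m r x u t then β t else 0)
      ≤ score N β (m + 1) r x u := by
  have hc0 : ∀ x y : List ℕ, cross (fun _ => 0) x y = 0 := by
    intro x y; unfold cross; split_ifs <;> rfl
  induction m with
  | zero =>
    intro r x u hr hx
    have h1 : ∑ t ∈ S.filter (fun t => ¬ (t <:+ x)),
        (if Hit N 0 r x u t then β t else 0) = 0 := by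
      refine Finset.sum_eq_zero fun t ht => ?_
      rw [Finset.mem_filter] at ht
      rw [if_neg]
      rintro ⟨-, rfl⟩
      exact ht.2 List.suffix_rfl
    rw [h1, add_zero]
    have e1 : vis N (0 + 1) r x u = (if x = [] then 1 else 0) +
        cross (fun _ => 0) x (r [x] (u 0)) +
        (if (r [x] (u 0)).length < N then 0 else 0) := rfl
    have e2 : score N β (0 + 1) r x u = (if x = [] then 1 else 0) +
        cross β x (r [x] (u 0)) +
        (if (r [x] (u 0)).length < N then 0 else 0) := rfl
    rw [e1, e2, hc0, add_zero]
    exact add_le_add (le_add_right le_rfl) le_rfl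
  | succ m ih =>
    intro r x u hr hx
    have e1 : vis N (m + 1 + 1) r x u = (if x = [] then 1 else 0) +
        cross (fun _ => 0) x (r [x] (u 0)) +
        (if (r [x] (u 0)).length < N then
          vis N (m + 1) (after r x) (r [x] (u 0)) (fun k => u (k + 1)) else 0) := rfl
    have e2 : score N β (m + 1 + 1) r x u = (if x = [] then 1 else 0) +
        cross β x (r [x] (u 0)) +
        (if (r [x] (u 0)).length < N then
          score N β (m + 1) (after r x) (r [x] (u 0)) (fun k => u (k + 1)) else 0) := rfl
    rw [e1, e2, hc0, add_zero]
    set y := r [x] (u 0) with hy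
    have hne : ∀ t, ¬ t <:+ x →
        (Hit N (m + 1) r x u t ↔ Hit N m (after r x) y (fun k => u (k + 1)) t) := by
      intro t ht
      constructor
      · rintro ⟨-, rfl | h⟩
        · exact absurd List.suffix_rfl ht
        · exact h
      · intro h
        exact ⟨hx, Or.inr h⟩
    have hsum : ∑ t ∈ S.filter (fun t => ¬ (t <:+ x)),
        (if Hit N (m + 1) r x u t then β t else 0) ≤ cross β x y +
        ∑ t ∈ S.filter (fun t => ¬ (t <:+ y)),
          (if Hit N m (after r x) y (fun k => u (k + 1)) t then β t else 0) := by
      rw [Finset.sum_filter, Finset.sum_filter]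
      have h1 : ∀ t ∈ S, (if ¬ t <:+ x then (if Hit N (m + 1) r x u t then β t else 0) else 0) ≤
          (if t = y then cross β x y else 0) +
          (if ¬ t <:+ y then (if Hit N m (after r x) y (fun k => u (k + 1)) t then β t else 0) else 0) := by
        intro t _
        by_cases hx1 : t <:+ x
        · rw [if_neg (not_not.2 hx1)]
          exact bot_le
        · rw [if_pos hx1]
          by_cases hy1 : t <:+ y
          · have h2 : t = y ∧ x.length < y.length := by
              rcases hr.cases x (u 0) with ⟨i, hi⟩ | ⟨i, hi⟩
              · rw [← hy] at hi
                rw [hi] at hy1 ⊢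
                rcases List.suffix_cons_iff.1 hy1 with h3 | h3
                · exact ⟨h3, by simp⟩
                · exact absurd h3 hx1
              · rw [← hy] at hi
                exfalso
                apply hx1
                rw [hi]
                exact hy1.trans (List.suffix_cons i y)
            rw [if_pos h2.1]
            unfold cross
            rw [if_pos h2.2, h2.1]
            refine le_add_right ?_
            split_ifs
            · exact le_rfl
            · exact bot_le
          · rw [if_pos hy1]
            refine le_add_left ?_
            by_cases h3 : Hit N (m + 1) r x u t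
            · rw [if_pos h3, if_pos ((hne t hx1).1 h3)]
            · rw [if_neg h3]
              exact bot_le
      refine (Finset.sum_le_sum h1).trans ?_
      rw [Finset.sum_add_distrib]
      refine add_le_add ?_ le_rfl
      rw [Finset.sum_ite_eq']
      split_ifs
      · exact le_rfl
      · exact bot_le
    by_cases hyN : y.length < N
    · rw [if_pos hyN, if_pos hyN]
      have h2 := ih (after r x) y (fun k => u (k + 1)) (hr.after x) hyN
      calc (if x = [] then (1 : ℝ≥0∞) else 0) +
            vis N (m + 1) (after r x) y (fun k => u (k + 1)) +
            ∑ t ∈ S.filter (fun t => ¬ (t <:+ x)),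
              (if Hit N (m + 1) r x u t then β t else 0)
          ≤ (if x = [] then (1 : ℝ≥0∞) else 0) +
            vis N (m + 1) (after r x) y (fun k => u (k + 1)) +
            (cross β x y + ∑ t ∈ S.filter (fun t => ¬ (t <:+ y)),
              (if Hit N m (after r x) y (fun k => u (k + 1)) t then β t else 0)) :=
            add_le_add le_rfl hsum
        _ = (if x = [] then 1 else 0) + cross β x y +
            (vis N (m + 1) (after r x) y (fun k => u (k + 1)) +
              ∑ t ∈ S.filter (fun t => ¬ (t <:+ y)),
              (if Hit N m (after r x) y (fun k => u (k + 1)) t then β t else 0)) := by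
            ac_rfl
        _ ≤ _ := add_le_add le_rfl h2
    · rw [if_neg hyN, if_neg hyN, add_zero, add_zero]
      have hno : ∀ t, ¬ Hit N m (after r x) y (fun k => u (k + 1)) t :=
        fun t h => hyN (hit_length N m _ y t _ h)
      have h3 : ∑ t ∈ S.filter (fun t => ¬ (t <:+ y)),
          (if Hit N m (after r x) y (fun k => u (k + 1)) t then β t else 0) = 0 :=
        Finset.sum_eq_zero fun t _ => if_neg (hno t)
      rw [h3, add_zero] at hsum
      exact add_le_add le_rfl hsum


end Pool.Agent.H99.FR
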